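import Mathlib

/-! Sums over unordered pairs and triples; the operators `a v + b G v + c tot(v) 1`. -/

set_option autoImplicit false

open scoped RealInnerProductSpace

namespace Pool.Agent.R165.Metric

/-- The unordered pairs of distinct elements of `{0, …, n-1}`. -/
abbrev Pair (n : ℕ) := {e : Sym2 (Fin n) // ¬ e.IsDiag}

/-- The space of families `(d_{ij})` of real numbers indexed by the unordered pairs. -/
abbrev V (n : ℕ) := EuclideanSpace ℝ (Pair n)

/-- The entry `d_{ij} = d_{ji}` of `d` (and `0` if `i = j`). -/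
noncomputable def ent {n : ℕ} (d : V n) (i j : Fin n) : ℝ :=
  if h : i ≠ j then d ⟨s(i, j), by simpa using h⟩ else 0

variable {n : ℕ}

lemma ent_self (d : V n) (i : Fin n) : ent d i i = 0 := by simp [ent]

lemma ent_of_ne (d : V n) {i j : Fin n} (h : i ≠ j) :
    ent d i j = d ⟨s(i, j), by simpa using h⟩ := by simp [ent, h]

lemma ent_comm (d : V n) (i j : Fin n) : ent d i j = ent d j i := by
  by_cases h : i = j
  · rw [h]
  · rw [ent_of_ne d h, ent_of_ne d (Ne.symm h)]
    have : (⟨s(i, j), by simpa using h⟩ : Pair n) = ⟨s(j, i), by simpa using (Ne.symm h)⟩ :=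
      Subtype.ext Sym2.eq_swap
    rw [this]

/-- incidence numbers -/
noncomputable def inc (i : Fin n) (e : Pair n) : ℝ := if i ∈ e.1 then 1 else 0

lemma sum_inc_mul (i : Fin n) (f : Pair n → ℝ) :
    ∑ e, inc i e * f e = ∑ j, if h : i ≠ j then f ⟨s(i, j), by simpa using h⟩ else 0 := by
  classical
  have h1 : ∑ e, inc i e * f e = ∑ e ∈ Finset.univ.filter (fun e : Pair n => i ∈ e.1), f e := by
    rw [Finset.sum_filter]
    refine Finset.sum_congr rfl fun e _ => ?_
    unfold inc; split_ifs <;> simp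
  have h2 : (∑ j, if h : i ≠ j then f ⟨s(i, j), by simpa using h⟩ else 0) =
      ∑ j ∈ Finset.univ.filter (fun j : Fin n => i ≠ j),
        if h : i ≠ j then f ⟨s(i, j), by simpa using h⟩ else 0 := by
    rw [Finset.sum_filter]
    refine Finset.sum_congr rfl fun j _ => ?_
    by_cases h : i = j
    · subst h; simp
    · simp [h]
  rw [h1, h2]
  symm
  refine Finset.sum_bij (fun j hj => (⟨s(i, j), by simpa using hj⟩ : Pair n)) ?_ ?_ ?_ ?_
  · intro j hj; simp
  · intro j hj j' hj' h
    simp only [Subtype.mk.injEq] at h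
    rcases Sym2.eq_iff.1 h with ⟨_, h⟩ | ⟨h1, h2⟩
    · exact h
    · rw [h2, ← h1]
  · intro e he
    simp only [Finset.mem_filter, Finset.mem_univ, true_and] at he
    obtain ⟨j, hj⟩ := Sym2.mem_iff_exists.1 he
    have hne : i ≠ j := by
      intro h
      apply e.2
      rw [hj, h]; simp
    exact ⟨j, by simp [hne], Subtype.ext hj.symm⟩
  · intro j hj
    simp only [Finset.mem_filter, Finset.mem_univ, true_and] at hj
    simp [hj]

/-- the degree of `i` -/
noncomputable def deg (d : V n) (i : Fin n) : ℝ := ∑ e, inc i e * d e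

/-- the sum of all entries -/
noncomputable def tot (d : V n) : ℝ := ∑ e, d e

lemma deg_eq (d : V n) (i : Fin n) : deg d i = ∑ j, ent d i j := sum_inc_mul i _

lemma sum_inc (e : Pair n) : ∑ i, inc i e = 2 := by
  classical
  obtain ⟨e, he⟩ := e
  induction e using Sym2.ind with
  | _ i j =>
    have hij : i ≠ j := by simpa using he
    have h1 : ∀ k, inc k ⟨s(i, j), he⟩ = (if k = i then 1 else 0) + (if k = j then 1 else 0) := by
      intro k
      simp only [inc, Sym2.mem_iff]
      by_cases h1 : k = i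
      · subst h1; simp [hij]
      · by_cases h2 : k = j
        · subst h2; simp [h1]
        · simp [h1, h2]
    simp_rw [h1, Finset.sum_add_distrib]
    simp
    norm_num

lemma sum_pair (f : Pair n → ℝ) :
    ∑ i, ∑ j, (if h : i ≠ j then f ⟨s(i, j), by simpa using h⟩ else 0) = 2 * ∑ e, f e := by
  simp_rw [← sum_inc_mul]
  rw [Finset.sum_comm]
  simp_rw [← Finset.sum_mul, sum_inc]
  rw [Finset.mul_sum]

lemma sum_ent (d : V n) (g : ℝ → ℝ) (hg : g 0 = 0) :
    ∑ i, ∑ j, g (ent d i j) = 2 * ∑ e, g (d e) := by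
  rw [← sum_pair (fun e => g (d e))]
  refine Finset.sum_congr rfl fun i _ => Finset.sum_congr rfl fun j _ => ?_
  by_cases h : i = j
  · subst h; simp [ent_self, hg]
  · simp [ent, h]

lemma sum_ent_mul (x y : V n) :
    ∑ i, ∑ j, ent x i j * ent y i j = 2 * ∑ e, x e * y e := by
  rw [← sum_pair (fun e => x e * y e)]
  refine Finset.sum_congr rfl fun i _ => Finset.sum_congr rfl fun j _ => ?_
  by_cases h : i = j
  · subst h; simp [ent_self]
  · simp [ent, h]

lemma sum_inc_edge (i : Fin n) : ∑ e : Pair n, inc i e = n - 1 := by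
  classical
  have h := sum_inc_mul i (fun _ => (1 : ℝ))
  simp only [mul_one, dite_eq_ite] at h
  rw [h]
  have h2 : ∀ j, (if i ≠ j then (1 : ℝ) else 0) = 1 - if j = i then 1 else 0 := by
    intro j
    by_cases hh : i = j
    · subst hh; simp
    · simp [hh, Ne.symm hh]
  simp_rw [h2, Finset.sum_sub_distrib]
  simp

lemma sum_inc_inc (i j : Fin n) :
    ∑ e : Pair n, inc i e * inc j e = (n - 2) * (if i = j then 1 else 0) + 1 := by
  classical
  by_cases h : i = j
  · subst h
    have : ∀ e : Pair n, inc i e * inc i e = inc i e := by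
      intro e; unfold inc; split_ifs <;> simp
    simp_rw [this, sum_inc_edge]
    simp; ring
  · rw [sum_inc_mul]
    have h2 : ∀ k, (if hh : i ≠ k then inc j (⟨s(i, k), by simpa using hh⟩ : Pair n) else 0) =
        if k = j then 1 else 0 := by
      intro k
      by_cases hk : i = k
      · subst hk; simp [h]
      · simp only [ne_eq, hk, not_false_eq_true, dite_true, inc, Sym2.mem_iff]
        have : ¬ j = i := fun h' => h h'.symm
        simp [this, eq_comm]
    simp_rw [h2]
    simp [h]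

lemma card_pair_eq : (Fintype.card (Pair n) : ℝ) = n * (n - 1) / 2 := by
  have h := sum_pair (n := n) (fun _ => (1 : ℝ))
  have h2 : ∀ i : Fin n, ∑ j, (if h : i ≠ j then (1 : ℝ) else 0) = n - 1 := by
    intro i
    rw [← sum_inc_edge i]
    have := sum_inc_mul i (fun _ => (1 : ℝ))
    simpa using this.symm
  simp_rw [h2] at h
  simp at h
  simp only [Fintype.card_subtype_compl] at *
  linarith

/-- the operator `G`: `(G v)_{ij} = deg_i + deg_j` -/
noncomputable def G (v : V n) : V n := WithLp.toLp 2 fun e => ∑ i, inc i e * deg v i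

/-- the all-ones vector times `t` -/
noncomputable def cst (t : ℝ) : V n := WithLp.toLp 2 fun _ => t

@[simp] lemma G_apply (v : V n) (e : Pair n) : G v e = ∑ i, inc i e * deg v i := rfl
@[simp] lemma cst_apply (t : ℝ) (e : Pair n) : (cst t : V n) e = t := rfl

lemma sum_deg (v : V n) : ∑ i, deg v i = 2 * tot v := by
  unfold deg tot
  rw [Finset.sum_comm]
  simp_rw [← Finset.sum_mul, sum_inc]
  rw [Finset.mul_sum]

lemma deg_G (v : V n) (j : Fin n) : deg (G v) j = (n - 2) * deg v j + 2 * tot v := by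
  have h : deg (G v) j = ∑ i, (∑ e : Pair n, inc i e * inc j e) * deg v i := by
    have h0 : deg (G v) j = ∑ e : Pair n, inc j e * ∑ i, inc i e * deg v i := rfl
    rw [h0]
    simp only [Finset.mul_sum]
    rw [Finset.sum_comm]
    refine Finset.sum_congr rfl fun i _ => ?_
    rw [Finset.sum_mul]
    exact Finset.sum_congr rfl fun e _ => by ring
  rw [h]
  simp_rw [sum_inc_inc, add_mul, one_mul, Finset.sum_add_distrib, sum_deg]
  simp

lemma tot_G (v : V n) : tot (G v) = 2 * (n - 1) * tot v := by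
  unfold tot
  simp only [G_apply]
  rw [Finset.sum_comm]
  simp_rw [← Finset.sum_mul, sum_inc_edge, ← Finset.mul_sum, sum_deg]
  unfold tot; ring

lemma deg_add (v w : V n) (i : Fin n) : deg (v + w) i = deg v i + deg w i := by
  unfold deg; simp [mul_add, Finset.sum_add_distrib]

lemma deg_sub (v w : V n) (i : Fin n) : deg (v - w) i = deg v i - deg w i := by
  unfold deg; simp [mul_sub, Finset.sum_sub_distrib]

lemma deg_smul (a : ℝ) (v : V n) (i : Fin n) : deg (a • v) i = a * deg v i := by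
  unfold deg
  rw [Finset.mul_sum]
  refine Finset.sum_congr rfl fun e _ => by simp; ring

lemma deg_cst (t : ℝ) (i : Fin n) : deg (cst t : V n) i = (n - 1) * t := by
  unfold deg; simp only [cst_apply]; rw [← Finset.sum_mul, sum_inc_edge]

lemma tot_add (v w : V n) : tot (v + w) = tot v + tot w := by
  unfold tot; simp [Finset.sum_add_distrib]

lemma tot_smul (a : ℝ) (v : V n) : tot (a • v) = a * tot v := by
  unfold tot; rw [Finset.mul_sum]; simp

lemma tot_cst (t : ℝ) : tot (cst t : V n) = n * (n - 1) / 2 * t := by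
  unfold tot
  simp only [cst_apply, Finset.sum_const, Finset.card_univ, nsmul_eq_mul]
  rw [card_pair_eq]

lemma G_add (v w : V n) : G (v + w) = G v + G w := by
  ext e; simp [deg_add, mul_add, Finset.sum_add_distrib]

lemma G_smul (a : ℝ) (v : V n) : G (a • v) = a • G v := by
  ext e
  simp only [G_apply, deg_smul, PiLp.smul_apply, smul_eq_mul, Finset.mul_sum]
  refine Finset.sum_congr rfl fun e _ => by ring

lemma G_cst (t : ℝ) : G (cst t : V n) = cst (2 * (n - 1) * t) := by
  ext e
  simp only [G_apply, deg_cst, cst_apply]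
  rw [← Finset.sum_mul, sum_inc]; ring

lemma G_G (v : V n) : G (G v) = (n - 2 : ℝ) • G v + cst (4 * tot v) := by
  ext e
  simp only [G_apply, deg_G, PiLp.add_apply, PiLp.smul_apply, smul_eq_mul, cst_apply]
  simp_rw [mul_add, Finset.sum_add_distrib]
  rw [← Finset.sum_mul, sum_inc, Finset.mul_sum]
  congr 1
  · refine Finset.sum_congr rfl fun e _ => by ring
  · ring

/-- `op a b c v = a v + b G v + c tot(v) 1` -/
noncomputable def op (a b c : ℝ) : V n →ₗ[ℝ] V n where
  toFun v := a • v + b • G v + cst (c * tot v)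
  map_add' v w := by
    ext e
    simp only [G_add, tot_add, PiLp.add_apply, PiLp.smul_apply, smul_eq_mul, cst_apply]
    ring
  map_smul' t v := by
    ext e
    simp only [G_smul, tot_smul, PiLp.add_apply, PiLp.smul_apply, smul_eq_mul, cst_apply,
      RingHom.id_apply]
    ring

lemma op_apply (a b c : ℝ) (v : V n) : op a b c v = a • v + b • G v + cst (c * tot v) := rfl

lemma tot_op (a b c : ℝ) (v : V n) :
    tot (op a b c v) = (a + 2 * (n - 1) * b + n * (n - 1) / 2 * c) * tot v := by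
  rw [op_apply, tot_add, tot_add, tot_smul, tot_smul, tot_G, tot_cst]; ring

lemma op_op (a b c a' b' c' : ℝ) (v : V n) :
    op a b c (op a' b' c' v) = op (a * a') (a * b' + b * a' + (n - 2) * b * b')
      (a * c' + c * a' + 4 * b * b' + 2 * (n - 1) * (b * c' + c * b') +
        n * (n - 1) / 2 * c * c') v := by
  have h : op a b c (op a' b' c' v) = a • op a' b' c' v + b • G (op a' b' c' v) +
    cst (c * tot (op a' b' c' v)) := rfl
  rw [h, tot_op]
  simp only [op_apply, G_add, G_smul, G_G, G_cst]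
  ext e
  simp only [PiLp.add_apply, PiLp.smul_apply, smul_eq_mul, cst_apply]
  ring

/-- the operator with eigenvalues `e₂, e₁, e₀` -/
noncomputable def eop (e₂ e₁ e₀ : ℝ) : V n →ₗ[ℝ] V n :=
  op e₂ ((e₁ - e₂) / (n - 2)) ((e₀ - e₂ - 2 * (n - 1) * ((e₁ - e₂) / (n - 2))) / (n * (n - 1) / 2))

lemma eop_eop (hn : 3 ≤ n) (e₂ e₁ e₀ f₂ f₁ f₀ : ℝ) (v : V n) :
    eop e₂ e₁ e₀ (eop f₂ f₁ f₀ v) = eop (e₂ * f₂) (e₁ * f₁) (e₀ * f₀) v := by
  have h3 : (3 : ℝ) ≤ n := by exact_mod_cast hn
  have h2 : (n : ℝ) - 2 ≠ 0 := by linarith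
  have h1 : (n : ℝ) - 1 ≠ 0 := by linarith
  have h0 : (n : ℝ) ≠ 0 := by linarith
  unfold eop
  rw [op_op]
  congr 2
  · field_simp; ring
  · field_simp; ring

lemma eop_one (hn : 3 ≤ n) (v : V n) : eop 1 1 1 v = v := by
  unfold eop
  rw [op_apply]
  ext e
  simp

lemma inner_eq (x y : V n) : ⟪x, y⟫ = ∑ e, x e * y e := by
  rw [PiLp.inner_apply]
  exact Finset.sum_congr rfl fun e _ => by simp [mul_comm]

lemma inner_G (x y : V n) : ⟪x, G y⟫ = ∑ i, deg x i * deg y i := by
  rw [inner_eq]
  simp only [G_apply, Finset.mul_sum]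
  rw [Finset.sum_comm]
  refine Finset.sum_congr rfl fun i _ => ?_
  have : deg x i * deg y i = ∑ e, (inc i e * x e) * deg y i := by
    rw [← Finset.sum_mul]; rfl
  rw [this]
  exact Finset.sum_congr rfl fun e _ => by ring

lemma inner_cst (x : V n) (t : ℝ) : ⟪x, cst t⟫ = tot x * t := by
  rw [inner_eq]
  simp only [cst_apply]
  rw [← Finset.sum_mul]; rfl

lemma inner_op (a b c : ℝ) (x y : V n) :
    ⟪x, op a b c y⟫ = a * ⟪x, y⟫ + b * ∑ i, deg x i * deg y i + c * (tot x * tot y) := by
  rw [op_apply, inner_add_right, inner_add_right, inner_smul_right, inner_smul_right, inner_G,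
    inner_cst]
  ring

lemma op_symm (a b c : ℝ) : (op a b c : V n →ₗ[ℝ] V n).IsSymmetric := by
  intro x y
  rw [real_inner_comm, inner_op, inner_op, real_inner_comm]
  have : ∑ i, deg y i * deg x i = ∑ i, deg x i * deg y i :=
    Finset.sum_congr rfl fun i _ => by ring
  rw [this]; ring

/-! ### Sums over ordered triples of distinct elements -/

/-- sum over the ordered triples of distinct elements -/
noncomputable def tsum3 (F : Fin n → Fin n → Fin n → ℝ) : ℝ :=
  ∑ i, ∑ j, ∑ k, if i ≠ j ∧ j ≠ k ∧ i ≠ k then F i j k else 0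

lemma tsum3_add (F F' : Fin n → Fin n → Fin n → ℝ) :
    tsum3 (fun i j k => F i j k + F' i j k) = tsum3 F + tsum3 F' := by
  unfold tsum3
  simp_rw [← Finset.sum_add_distrib]
  refine Finset.sum_congr rfl fun i _ => Finset.sum_congr rfl fun j _ =>
    Finset.sum_congr rfl fun k _ => ?_
  split_ifs <;> simp

lemma tsum3_mul (c : ℝ) (F : Fin n → Fin n → Fin n → ℝ) :
    tsum3 (fun i j k => c * F i j k) = c * tsum3 F := by
  unfold tsum3
  simp_rw [Finset.mul_sum]
  refine Finset.sum_congr rfl fun i _ => Finset.sum_congr rfl fun j _ =>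
    Finset.sum_congr rfl fun k _ => ?_
  split_ifs <;> simp

lemma tsum3_le (F F' : Fin n → Fin n → Fin n → ℝ)
    (h : ∀ i j k, i ≠ j → j ≠ k → i ≠ k → F i j k ≤ F' i j k) : tsum3 F ≤ tsum3 F' := by
  unfold tsum3
  refine Finset.sum_le_sum fun i _ => Finset.sum_le_sum fun j _ => Finset.sum_le_sum fun k _ => ?_
  split_ifs with h1
  · exact h i j k h1.1 h1.2.1 h1.2.2
  · exact le_rfl

lemma tsum3_rot (F : Fin n → Fin n → Fin n → ℝ) :
    tsum3 (fun i j k => F j k i) = tsum3 F := by
  unfold tsum3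
  rw [Finset.sum_comm]
  conv_rhs => enter [2, i]; rw [Finset.sum_comm]
  rw [Finset.sum_congr rfl fun j _ => Finset.sum_comm]
  refine Finset.sum_congr rfl fun j _ => ?_
  rw [Finset.sum_comm]
  refine Finset.sum_congr rfl fun k _ => Finset.sum_congr rfl fun i _ => ?_
  have : (k ≠ j ∧ j ≠ i ∧ k ≠ i) ↔ (j ≠ i ∧ i ≠ k ∧ j ≠ k) := by
    constructor <;> rintro ⟨h1, h2, h3⟩ <;> exact ⟨by tauto, by tauto, by tauto⟩
  by_cases h : (k ≠ j ∧ j ≠ i ∧ k ≠ i)
  · rw [if_pos h, if_pos (this.1 h)]
  · rw [if_neg h, if_neg (fun h' => h (this.2 h'))]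

lemma tsum3_swap (F : Fin n → Fin n → Fin n → ℝ) :
    tsum3 (fun i j k => F k j i) = tsum3 F := by
  unfold tsum3
  have e : ∀ i j k : Fin n, (i ≠ j ∧ j ≠ k ∧ i ≠ k) ↔ (k ≠ j ∧ j ≠ i ∧ k ≠ i) := by
    intro i j k
    constructor <;> rintro ⟨h1, h2, h3⟩ <;> exact ⟨Ne.symm h2, Ne.symm h1, Ne.symm h3⟩
  calc ∑ i, ∑ j, ∑ k, (if i ≠ j ∧ j ≠ k ∧ i ≠ k then F k j i else 0)
      = ∑ i, ∑ j, ∑ k, (if k ≠ j ∧ j ≠ i ∧ k ≠ i then F k j i else 0) := by
        simp_rw [e]
    _ = ∑ j, ∑ i, ∑ k, (if k ≠ j ∧ j ≠ i ∧ k ≠ i then F k j i else 0) := Finset.sum_comm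
    _ = ∑ j, ∑ k, ∑ i, (if k ≠ j ∧ j ≠ i ∧ k ≠ i then F k j i else 0) :=
        Finset.sum_congr rfl fun j _ => Finset.sum_comm
    _ = _ := Finset.sum_comm

lemma tsum3_rot2 (F : Fin n → Fin n → Fin n → ℝ) :
    tsum3 (fun i j k => F k i j) = tsum3 F :=
  (tsum3_rot (fun i j k => F j k i)).trans (tsum3_rot F)

lemma tsum3_p12 (F : Fin n → Fin n → Fin n → ℝ) :
    tsum3 (fun i j k => F j i k) = tsum3 F :=
  (tsum3_rot2 (fun i j k => F k j i)).trans (tsum3_swap F)

lemma tsum3_p23 (F : Fin n → Fin n → Fin n → ℝ) :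
    tsum3 (fun i j k => F i k j) = tsum3 F :=
  (tsum3_rot (fun i j k => F k j i)).trans (tsum3_swap F)

lemma tsum3_edge (F : Fin n → Fin n → ℝ) (hF : ∀ i, F i i = 0) :
    tsum3 (fun i j _ => F i j) = (n - 2) * ∑ i, ∑ j, F i j := by
  unfold tsum3
  rw [Finset.mul_sum]
  refine Finset.sum_congr rfl fun i _ => ?_
  rw [Finset.mul_sum]
  refine Finset.sum_congr rfl fun j _ => ?_
  have h : ∀ k, (if i ≠ j ∧ j ≠ k ∧ i ≠ k then F i j else 0) =
      F i j - (if k = i then F i j else 0) - (if k = j then F i j else 0) := by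
    intro k
    by_cases h1 : i = j
    · subst h1; simp [hF]
    · by_cases h2 : k = i
      · subst h2; simp [h1]
      · by_cases h3 : k = j
        · subst h3; simp [h2]
        · simp [h1, h2, h3, Ne.symm h2, Ne.symm h3]
  simp_rw [h, Finset.sum_sub_distrib]
  simp
  ring

lemma tsum3_path (X Y : Fin n → Fin n → ℝ) (hX : ∀ i, X i i = 0) (hY : ∀ i, Y i i = 0) :
    tsum3 (fun i j k => X i j * Y j k) =
      ∑ j, (∑ i, X i j) * (∑ k, Y j k) - ∑ i, ∑ j, X i j * Y j i := by
  unfold tsum3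
  have h : ∀ i j k, (if i ≠ j ∧ j ≠ k ∧ i ≠ k then X i j * Y j k else 0) =
      X i j * Y j k - (if k = i then X i j * Y j i else 0) := by
    intro i j k
    by_cases h1 : i = j
    · subst h1; simp [hX]
    · by_cases h2 : k = i
      · subst h2; simp [h1]
      · by_cases h3 : j = k
        · subst h3; simp [hY, h1, h2]
        · simp [h1, h2, h3, Ne.symm h2]
  simp_rw [h, Finset.sum_sub_distrib]
  simp only [Finset.sum_ite_eq', Finset.mem_univ, if_true]
  congr 1
  rw [Finset.sum_comm]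
  refine Finset.sum_congr rfl fun j _ => ?_
  simp_rw [← Finset.mul_sum]
  rw [← Finset.sum_mul]

/-- `⟨t, x⟩` for the triangle `t = e_ij + e_jk - e_ik` -/
noncomputable def tri (x : V n) (i j k : Fin n) : ℝ := ent x i j + ent x j k - ent x i k

lemma sum_ent' (d : V n) : ∑ i, ∑ j, ent d i j = 2 * tot d := by
  have := sum_ent d (fun t => t) rfl
  exact this

lemma tsum3_ent_mul (x y : V n) :
    tsum3 (fun i j _ => ent x i j * ent y i j) = 2 * (n - 2) * ⟪x, y⟫ := by
  rw [tsum3_edge (fun i j => ent x i j * ent y i j) (fun i => by simp [ent_self]),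
    sum_ent_mul, inner_eq]
  ring

lemma tsum3_path' (x y : V n) :
    tsum3 (fun i j k => ent x i j * ent y j k) = ∑ i, deg x i * deg y i - 2 * ⟪x, y⟫ := by
  rw [tsum3_path (ent x) (ent y) (ent_self x) (ent_self y)]
  congr 1
  · refine Finset.sum_congr rfl fun j _ => ?_
    rw [deg_eq, deg_eq]
    congr 1
    exact Finset.sum_congr rfl fun i _ => ent_comm x i j
  · rw [inner_eq, ← sum_ent_mul]
    refine Finset.sum_congr rfl fun i _ => Finset.sum_congr rfl fun j _ => ?_
    rw [ent_comm y j i]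

lemma tsum3_tri_mul (x y : V n) :
    tsum3 (fun i j k => tri x i j k * tri y i j k) =
      2 * ((3 * n - 4) * ⟪x, y⟫ - ∑ i, deg x i * deg y i) := by
  set P := ∑ i, deg x i * deg y i - 2 * ⟪x, y⟫ with hP
  have p1 : tsum3 (fun i j k => ent x i j * ent y j k) = P := tsum3_path' x y
  have a1 : tsum3 (fun i j _ => ent x i j * ent y i j) = 2 * (n - 2) * ⟪x, y⟫ := tsum3_ent_mul x y
  have a2 : tsum3 (fun _ j k => ent x j k * ent y j k) = 2 * (n - 2) * ⟪x, y⟫ :=
    (tsum3_rot (fun i j _ => ent x i j * ent y i j)).trans a1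
  have a3 : tsum3 (fun i _ k => ent x i k * ent y i k) = 2 * (n - 2) * ⟪x, y⟫ :=
    (tsum3_p23 (fun i j _ => ent x i j * ent y i j)).trans a1
  have p2 : tsum3 (fun i j k => ent x j k * ent y i j) = P := by
    rw [← p1, ← tsum3_swap (fun i j k => ent x i j * ent y j k)]
    congr 1; ext i j k; rw [ent_comm x k j, ent_comm y j i]
  have p3 : tsum3 (fun i j k => ent x i j * ent y i k) = P := by
    rw [← p1, ← tsum3_p12 (fun i j k => ent x i j * ent y j k)]
    congr 1; ext i j k; rw [ent_comm x j i]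
  have p4 : tsum3 (fun i j k => ent x i k * ent y i j) = P := by
    rw [← p1, ← tsum3_rot2 (fun i j k => ent x i j * ent y j k)]
    congr 1; ext i j k; rw [ent_comm x k i]
  have p5 : tsum3 (fun i j k => ent x j k * ent y i k) = P := by
    rw [← p1, ← tsum3_rot (fun i j k => ent x i j * ent y j k)]
    congr 1; ext i j k; rw [ent_comm y k i]
  have p6 : tsum3 (fun i j k => ent x i k * ent y j k) = P := by
    rw [← p1, ← tsum3_p23 (fun i j k => ent x i j * ent y j k)]
    congr 1; ext i j k; rw [ent_comm y k j]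
  have key : tsum3 (fun i j k => tri x i j k * tri y i j k) =
      tsum3 (fun i j _ => ent x i j * ent y i j) + tsum3 (fun _ j k => ent x j k * ent y j k) +
      tsum3 (fun i _ k => ent x i k * ent y i k) + tsum3 (fun i j k => ent x i j * ent y j k) +
      tsum3 (fun i j k => ent x j k * ent y i j) + (-1) * tsum3 (fun i j k => ent x i j * ent y i k) +
      (-1) * tsum3 (fun i j k => ent x i k * ent y i j) +
      (-1) * tsum3 (fun i j k => ent x j k * ent y i k) +
      (-1) * tsum3 (fun i j k => ent x i k * ent y j k) := by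
    simp only [← tsum3_mul, ← tsum3_add]
    congr 1; ext i j k; unfold tri; ring
  rw [key, a1, a2, a3, p1, p2, p3, p4, p5, p6, hP]
  ring

end Pool.Agent.R165.Metric
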