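import Pool.Agent.R165.Metric.Main

set_option autoImplicit false

open scoped RealInnerProductSpace
open MeasureTheory Metric Filter Topology

namespace Pool.Agent.R165.Metric

open Pool.Agent.R165.John (ellipsoid)

variable {n : ℕ}

/-- The cut metric `δ(S)`. -/
noncomputable def cut (S : Finset (Fin n)) : V n :=
  WithLp.toLp 2 fun e => (∑ i ∈ S, inc i e) * (2 - ∑ i ∈ S, inc i e)

lemma ent_cut (S : Finset (Fin n)) (i j : Fin n) :
    ent (cut S) i j = (if i ∈ S then (1 : ℝ) else 0) * (1 - if j ∈ S then 1 else 0) +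
      (1 - if i ∈ S then (1 : ℝ) else 0) * (if j ∈ S then 1 else 0) := by
  classical
  by_cases h : i = j
  · subst h
    rw [ent_self]
    split_ifs <;> simp
  · rw [ent_of_ne _ h]
    have : ∀ h' : ¬ (s(i, j) : Sym2 (Fin n)).IsDiag, ∑ k ∈ S, inc k (⟨s(i, j), h'⟩ : Pair n) =
        (if i ∈ S then (1 : ℝ) else 0) + (if j ∈ S then 1 else 0) := by
      intro h'
      simp_rw [inc_mk]
      rw [Finset.sum_add_distrib]
      simp
    simp only [cut]
    rw [this]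
    split_ifs <;> norm_num

lemma cut_mem (hn : 3 ≤ n) (S : Finset (Fin n)) : cut S ∈ metricPolytope n := by
  classical
  refine ⟨fun e => ?_, fun i j k hij hjk hik => ?_⟩
  · obtain ⟨e, he⟩ := e
    induction e using Sym2.ind with
    | _ i j =>
      have hij : i ≠ j := by simpa using he
      have := ent_cut S i j
      rw [ent_of_ne _ hij] at this
      rw [this]
      split_ifs <;> norm_num
  · rw [ent_cut, ent_cut, ent_cut]
    split_ifs <;> norm_num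

lemma sum_ind (S : Finset (Fin n)) : ∑ j : Fin n, (if j ∈ S then (1 : ℝ) else 0) = S.card := by
  simp

lemma deg_cut (S : Finset (Fin n)) (i : Fin n) :
    deg (cut S) i = (if i ∈ S then (1 : ℝ) else 0) * (n - S.card) +
      (1 - if i ∈ S then (1 : ℝ) else 0) * S.card := by
  classical
  rw [deg_eq]
  simp_rw [ent_cut]
  rw [Finset.sum_add_distrib, ← Finset.mul_sum, ← Finset.mul_sum, Finset.sum_sub_distrib, sum_ind]
  simp

lemma tot_cut (S : Finset (Fin n)) : tot (cut S) = S.card * (n - S.card) := by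
  have h := sum_deg (cut S)
  simp_rw [deg_cut] at h
  rw [Finset.sum_add_distrib, ← Finset.sum_mul, ← Finset.sum_mul, Finset.sum_sub_distrib,
    sum_ind] at h
  simp at h
  linarith

lemma sum_deg_cut (S : Finset (Fin n)) :
    ∑ i, deg (cut S) i ^ 2 = n * (S.card * (n - S.card)) := by
  classical
  have h : ∀ i, deg (cut S) i ^ 2 = (if i ∈ S then (1 : ℝ) else 0) * (n - S.card) ^ 2 +
      (1 - if i ∈ S then (1 : ℝ) else 0) * S.card ^ 2 := by
    intro i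
    rw [deg_cut]
    split_ifs <;> simp
  simp_rw [h]
  rw [Finset.sum_add_distrib, ← Finset.sum_mul, ← Finset.sum_mul, Finset.sum_sub_distrib, sum_ind]
  simp
  ring

lemma sum_sq_cut (S : Finset (Fin n)) :
    ∑ e, cut S e ^ 2 = S.card * (n - S.card) := by
  classical
  have h1 := sum_ent (cut S) (fun t => t ^ 2) (by norm_num)
  have h2 := sum_ent (cut S) (fun t => t) rfl
  have h3 : ∑ i, ∑ j, ent (cut S) i j ^ 2 = ∑ i, ∑ j, ent (cut S) i j := by
    refine Finset.sum_congr rfl fun i _ => Finset.sum_congr rfl fun j _ => ?_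
    rw [ent_cut]
    split_ifs <;> norm_num
  have h4 := tot_cut S
  unfold tot at h4
  simp only at h1 h2
  rw [← h4]
  linarith

lemma Q_cut (hn : 3 ≤ n) {δ : ℝ} (h0 : 0 < δ) (h1 : δ < 1) (S : Finset (Fin n))
    (hS : (S.card : ℝ) * (n - S.card) = ((n ^ 2 / 4 : ℕ) : ℝ)) : Q n δ (cut S) = Qmax n δ := by
  have h3 : (3 : ℝ) ≤ n := by exact_mod_cast hn
  have hn2 : (0 : ℝ) < n - 2 := by linarith
  have h1' : 0 < 1 - δ := by linarith
  rw [Q, sum_sq_sub, sum_deg_sub, sum_deg_cut, sum_sq_cut, tot_cut, hS, Qmax]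
  generalize ((n ^ 2 / 4 : ℕ) : ℝ) = E
  field_simp
  ring

/-- the first half of `{1, …, n}` -/
def half (n : ℕ) : Finset (Fin n) := Finset.univ.filter (fun i : Fin n => (i : ℕ) < n / 2)

lemma card_half (n : ℕ) : (half n).card = n / 2 := by
  unfold half
  rw [Fin.card_filter_val_lt]
  exact min_eq_right (Nat.div_le_self n 2)

lemma half_eq (n : ℕ) : ((half n).card : ℝ) * (n - (half n).card) = ((n ^ 2 / 4 : ℕ) : ℝ) := by
  rw [card_half]
  rcases Nat.even_or_odd' n with ⟨k, hk | hk⟩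
  · have h1 : n ^ 2 / 4 = k ^ 2 := by
      rw [hk]
      have : (2 * k) ^ 2 = 4 * k ^ 2 := by ring
      omega
    have h2 : n / 2 = k := by omega
    rw [h1, h2, hk]; push_cast; ring
  · have h1 : n ^ 2 / 4 = k * (k + 1) := by
      rw [hk]
      have : (2 * k + 1) ^ 2 = 4 * (k * (k + 1)) + 1 := by ring
      omega
    have h2 : n / 2 = k := by omega
    rw [h1, h2, hk]; push_cast; ring

lemma Qmax_pos (hn : 3 ≤ n) {δ : ℝ} (h0 : 1 / 2 ≤ δ) (h1 : δ ≤ 2 / 3) : 0 < Qmax n δ := by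
  have h3 : (3 : ℝ) ≤ n := by exact_mod_cast hn
  unfold Qmax
  have h5 : 0 < n * (n - 1) * δ / (2 * (1 - δ)) := by
    have : (0 : ℝ) < n - 1 := by linarith
    have : 0 < 1 - δ := by linarith
    have : 0 < δ := by linarith
    positivity
  have h6 : 0 ≤ ((n ^ 2 / 4 : ℕ) : ℝ) * (2 - 3 * δ) / (δ * (1 - δ)) := by
    apply div_nonneg
    · exact mul_nonneg (Nat.cast_nonneg _) (by linarith)
    · nlinarith
  linarith

/-- the least dilate containing the metric polytope -/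
theorem isLeast (hn : 3 ≤ n) {δ : ℝ} (h0 : 1 / 2 ≤ δ) (h1 : δ ≤ 2 / 3) :
    IsLeast {t : ℝ | 0 < t ∧ metricPolytope n ⊆
      AffineMap.homothety (cst δ : V n) t '' ellipsoid (R n δ) (cst δ)} (√(Qmax n δ)) := by
  have hpos := Qmax_pos hn h0 h1
  constructor
  · refine ⟨Real.sqrt_pos.2 hpos, fun d hd => ?_⟩
    rw [mem_dilate_iff hn (by linarith) (by linarith) (Real.sqrt_pos.2 hpos), Real.sq_sqrt hpos.le]
    exact Q_le hn h0 h1 hd
  · rintro t ⟨ht, hsub⟩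
    have h := hsub (cut_mem hn (half n))
    rw [mem_dilate_iff hn (by linarith) (by linarith) ht,
      Q_cut hn (by linarith) (by linarith) _ (half_eq n)] at h
    exact Real.sqrt_le_iff.2 ⟨ht.le, h⟩

/-- the cubic has a root in `(1/2, 2/3)` -/
lemma exists_root (hn : 3 ≤ n) : ∃ δ : ℝ, 1 / 2 < δ ∧ δ < 2 / 3 ∧ cubic n δ = 0 := by
  have h3 : (3 : ℝ) ≤ n := by exact_mod_cast hn
  have e1 : cubic n (1 / 2) = 3 * (n - 1) * (n - 2) / 4 := by unfold cubic; ring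
  have e2 : cubic n (2 / 3) = (-4 * n ^ 2 + 10 * n - 8) / 27 := by unfold cubic; ring
  have p1 : 0 < cubic n (1 / 2) := by
    rw [e1]
    have : (0 : ℝ) < n - 1 := by linarith
    have : (0 : ℝ) < n - 2 := by linarith
    positivity
  have p2 : cubic n (2 / 3) < 0 := by
    rw [e2]
    have : (-4 : ℝ) * n ^ 2 + 10 * n - 8 < 0 := by nlinarith
    linarith
  have hc : ContinuousOn (cubic n) (Set.Icc (1 / 2) (2 / 3)) := by
    unfold cubic; fun_prop
  obtain ⟨δ, ⟨h1, h2⟩, h⟩ := intermediate_value_Icc' (by norm_num : (1 / 2 : ℝ) ≤ 2 / 3) hc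
    ⟨p2.le, p1.le⟩
  refine ⟨δ, lt_of_le_of_ne h1 ?_, lt_of_le_of_ne h2 ?_, h⟩
  · rintro rfl; exact p1.ne' h
  · rintro rfl; exact p2.ne h

lemma cst_inj (hn : 3 ≤ n) {s t : ℝ} (h : (cst s : V n) = cst t) : s = t := by
  have h01 : (⟨0, by omega⟩ : Fin n) ≠ ⟨1, by omega⟩ := by simp
  have := congrArg (fun v : V n => v ⟨s(⟨0, by omega⟩, ⟨1, by omega⟩), by simpa using h01⟩) h
  simpa using this

/-- it is the only root in `(0, 1)` -/
lemma root_unique (hn : 3 ≤ n) {s t : ℝ} (hs0 : 0 < s) (hs1 : s < 1) (hs : cubic n s = 0)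
    (ht0 : 0 < t) (ht1 : t < 1) (ht : cubic n t = 0) : s = t := by
  obtain ⟨a1, a2⟩ := john hn hs0 hs1 hs
  obtain ⟨b1, b2⟩ := john hn ht0 ht1 ht
  have h1 := (a2 _ _ b1).1
  exact cst_inj hn ((b2 _ _ a1).2 h1).2

lemma root_bound (hn : 3 ≤ n) {δ : ℝ} (h0 : 1 / 2 < δ) (h1 : δ < 2 / 3) (h : cubic n δ = 0) :
    |δ - (3 - √3) / 2| ≤ 10 / n := by
  have h3 : (3 : ℝ) ≤ n := by exact_mod_cast hn
  have hn0 : (0 : ℝ) < n := by linarith
  have hs : √3 * √3 = 3 := Real.mul_self_sqrt (by norm_num)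
  have hs1 : 1 < √3 := by
    rw [Real.lt_sqrt (by norm_num)]; norm_num
  -- expansion in powers of `n`
  have e : cubic n δ = n ^ 2 * ((2 - δ) * (3 - 6 * δ + 2 * δ ^ 2)) +
      n * (-(1 - δ) * (2 * (2 - δ) ^ 2 + 6 - 4 * δ) + 4 * δ) +
      (4 * (1 - δ) * (2 - δ) - 4 * δ * (δ + (1 - δ) ^ 2)) := by
    unfold cubic; ring
  rw [e] at h
  set a := -(1 - δ) * (2 * (2 - δ) ^ 2 + 6 - 4 * δ) + 4 * δ with ha
  set b := 4 * (1 - δ) * (2 - δ) - 4 * δ * (δ + (1 - δ) ^ 2) with hb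
  have ha1 : |a| ≤ 10 := by
    rw [ha, abs_le]
    have p1 : 0 ≤ (2 - δ) ^ 2 := sq_nonneg _
    have p2 : (2 - δ) ^ 2 ≤ 9 / 4 := by nlinarith
    constructor
    · have : (1 - δ) * (2 * (2 - δ) ^ 2 + 6 - 4 * δ) ≤ (1 / 2) * (9 / 2 + 6 - 2) := by
        apply mul_le_mul <;> nlinarith
      nlinarith
    · have : 0 ≤ (1 - δ) * (2 * (2 - δ) ^ 2 + 6 - 4 * δ) := by
        apply mul_nonneg <;> nlinarith
      nlinarith
  have hb1 : |b| ≤ 10 := by
    rw [hb, abs_le]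
    have p1 : 0 ≤ (1 - δ) ^ 2 := sq_nonneg _
    have p2 : (1 - δ) ^ 2 ≤ 1 / 4 := by nlinarith
    have p3 : 0 ≤ (1 - δ) * (2 - δ) := by apply mul_nonneg <;> linarith
    have p4 : (1 - δ) * (2 - δ) ≤ (1 / 2) * (3 / 2) := by apply mul_le_mul <;> linarith
    have p5 : 0 ≤ δ * (δ + (1 - δ) ^ 2) := by apply mul_nonneg <;> nlinarith
    have p6 : δ * (δ + (1 - δ) ^ 2) ≤ (2 / 3) * (2 / 3 + 1 / 4) := by
      apply mul_le_mul <;> nlinarith
    constructor <;> nlinarith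
  have hA : |(n : ℝ) ^ 2 * ((2 - δ) * (3 - 6 * δ + 2 * δ ^ 2))| ≤ (20 : ℝ) * n := by
    have : (n : ℝ) ^ 2 * ((2 - δ) * (3 - 6 * δ + 2 * δ ^ 2)) = -(n * a + b) := by linarith
    rw [this, abs_neg]
    refine (abs_add_le _ _).trans ?_
    rw [abs_mul, abs_of_pos hn0]
    nlinarith [abs_nonneg a]
  have hfac : (n : ℝ) ^ 2 * ((2 - δ) * (3 - 6 * δ + 2 * δ ^ 2)) =
      -(n ^ 2 * (2 - δ) * 2 * ((3 + √3) / 2 - δ)) * (δ - (3 - √3) / 2) := by
    linear_combination (n : ℝ) ^ 2 * (2 - δ) * (1 / 2) * hs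
  rw [hfac, abs_mul, abs_neg] at hA
  have hpos : 2 * (n : ℝ) ^ 2 ≤ |(n : ℝ) ^ 2 * (2 - δ) * 2 * ((3 + √3) / 2 - δ)| := by
    refine le_trans ?_ (le_abs_self _)
    have q1 : 1 ≤ 2 - δ := by linarith
    have q2 : 1 ≤ (3 + √3) / 2 - δ := by linarith
    have q3 : 1 ≤ (2 - δ) * ((3 + √3) / 2 - δ) := by nlinarith
    have q4 : (n : ℝ) ^ 2 * (2 - δ) * 2 * ((3 + √3) / 2 - δ) =
      2 * n ^ 2 * ((2 - δ) * ((3 + √3) / 2 - δ)) := by ring
    rw [q4]
    exact le_mul_of_one_le_right (by positivity) q3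
  have h7 : 2 * (n : ℝ) ^ 2 * |δ - (3 - √3) / 2| ≤ (20 : ℝ) * n :=
    (mul_le_mul_of_nonneg_right hpos (abs_nonneg _)).trans hA
  rw [le_div_iff₀ hn0]
  have h8 : 2 * (n : ℝ) * (|δ - (3 - √3) / 2| * n) ≤ 2 * n * 10 := by
    have h9 : 2 * (n : ℝ) * (|δ - (3 - √3) / 2| * n) = 2 * (n : ℝ) ^ 2 * |δ - (3 - √3) / 2| := by
      ring
    rw [h9]; linarith
  exact le_of_mul_le_mul_left h8 (by positivity)

lemma tendsto_floor : Tendsto (fun n : ℕ => ((n ^ 2 / 4 : ℕ) : ℝ) / n ^ 2) atTop (𝓝 (1 / 4)) := by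
  have h1 : Tendsto (fun n : ℕ => (1 / 4 : ℝ) - 1 / n) atTop (𝓝 (1 / 4)) := by
    have := (tendsto_const_nhds (x := (1 / 4 : ℝ))).sub tendsto_one_div_atTop_nhds_zero_nat
    simpa using this
  refine tendsto_of_tendsto_of_tendsto_of_le_of_le' h1 tendsto_const_nhds ?_ ?_
  · filter_upwards [eventually_ge_atTop 1] with n hn
    have hn1 : (1 : ℝ) ≤ n := by exact_mod_cast hn
    have hn0 : (0 : ℝ) < (n : ℝ) ^ 2 := by positivity
    rw [le_div_iff₀ hn0]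
    have h2 : n ^ 2 < (n ^ 2 / 4 + 1) * 4 := by omega
    have h3 : (n : ℝ) ^ 2 < (((n ^ 2 / 4 : ℕ) : ℝ) + 1) * 4 := by exact_mod_cast h2
    have h4 : ((1 : ℝ) / 4 - 1 / n) * n ^ 2 = n ^ 2 / 4 - n := by field_simp
    rw [h4]; linarith
  · filter_upwards [eventually_ge_atTop 1] with n hn
    have hn1 : (1 : ℝ) ≤ n := by exact_mod_cast hn
    have hn0 : (0 : ℝ) < (n : ℝ) ^ 2 := by positivity
    rw [div_le_iff₀ hn0]
    have h2 : (n ^ 2 / 4) * 4 ≤ n ^ 2 := Nat.div_mul_le_self _ _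
    have h3 : ((n ^ 2 / 4 : ℕ) : ℝ) * 4 ≤ (n : ℝ) ^ 2 := by exact_mod_cast h2
    linarith

lemma tendsto_Qmax (δ : ℕ → ℝ) (h : Tendsto δ atTop (𝓝 ((3 - √3) / 2))) :
    Tendsto (fun n : ℕ => Qmax n (δ n) / n ^ 2) atTop (𝓝 ((5 * √3 + 3) / 12)) := by
  have hs : √3 * √3 = 3 := Real.mul_self_sqrt (by norm_num)
  have hs1 : 1 < √3 := by rw [Real.lt_sqrt (by norm_num)]; norm_num
  have hs2 : √3 < 2 := by rw [Real.sqrt_lt' (by norm_num)]; norm_num
  have hd0 : (0 : ℝ) < (3 - √3) / 2 := by linarith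
  have hd1 : (0 : ℝ) < 1 - (3 - √3) / 2 := by linarith
  have h1 : Tendsto (fun n : ℕ => (1 : ℝ) - 1 / n) atTop (𝓝 1) := by
    have := (tendsto_const_nhds (x := (1 : ℝ))).sub tendsto_one_div_atTop_nhds_zero_nat
    simpa using this
  have h2 : Tendsto (fun n : ℕ => (1 - 1 / (n : ℝ)) * (δ n / (2 * (1 - δ n))) +
      ((n ^ 2 / 4 : ℕ) : ℝ) / n ^ 2 * ((2 - 3 * δ n) / (δ n * (1 - δ n)))) atTop
      (𝓝 (1 * (((3 - √3) / 2) / (2 * (1 - (3 - √3) / 2))) +
        1 / 4 * ((2 - 3 * ((3 - √3) / 2)) / (((3 - √3) / 2) * (1 - (3 - √3) / 2))))) := by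
    refine (h1.mul ?_).add (tendsto_floor.mul ?_)
    · exact h.div ((tendsto_const_nhds.sub h).const_mul 2) (by positivity)
    · exact (tendsto_const_nhds.sub (h.const_mul 3)).div (h.mul (tendsto_const_nhds.sub h))
        (by positivity)
  have e : (1 * (((3 - √3) / 2) / (2 * (1 - (3 - √3) / 2))) +
        1 / 4 * ((2 - 3 * ((3 - √3) / 2)) / (((3 - √3) / 2) * (1 - (3 - √3) / 2)))) =
      (5 * √3 + 3) / 12 := by
    have k0 : (3 - √3) ≠ 0 := by linarith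
    have k1 : (√3 - 1) ≠ 0 := by linarith
    have k2 : 1 - (3 - √3) / 2 = (√3 - 1) / 2 := by ring
    rw [k2]
    field_simp
    generalize √3 = s at *
    have h33 : s ^ 2 = 3 := by rw [pow_two]; exact hs
    have h333 : s ^ 3 = 3 * s := by rw [pow_succ, h33]
    ring_nf
    rw [h333, h33]
    ring
  rw [e] at h2
  refine h2.congr' ?_
  filter_upwards [eventually_ge_atTop 1] with n hn
  have hn1 : (1 : ℝ) ≤ n := by exact_mod_cast hn
  have hn0 : (n : ℝ) ≠ 0 := by positivity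
  unfold Qmax
  generalize ((n ^ 2 / 4 : ℕ) : ℝ) = E
  rw [add_div]
  congr 1
  · have : (1 - 1 / (n : ℝ)) = n * (n - 1) / n ^ 2 := by field_simp
    rw [this]
    ring
  · ring

lemma const_eq : √((5 * √3 + 3) / 12) = (3 : ℝ) ^ (3 / 4 : ℝ) * √(5 + √3) / 6 := by
  have hs : √3 * √3 = 3 := Real.mul_self_sqrt (by norm_num)
  have h1 : ((3 : ℝ) ^ (3 / 4 : ℝ)) ^ 2 = 3 * √3 := by
    rw [← Real.rpow_natCast, ← Real.rpow_mul (by norm_num)]
    have : (3 / 4 : ℝ) * ((2 : ℕ) : ℝ) = 1 + 1 / 2 := by norm_num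
    rw [this, Real.rpow_add (by norm_num), Real.rpow_one, ← Real.sqrt_eq_rpow]
  rw [Real.sqrt_eq_iff_mul_self_eq (by positivity) (by positivity)]
  have h2 : √(5 + √3) * √(5 + √3) = 5 + √3 := Real.mul_self_sqrt (by positivity)
  have e : (3 : ℝ) ^ (3 / 4 : ℝ) * √(5 + √3) / 6 * ((3 : ℝ) ^ (3 / 4 : ℝ) * √(5 + √3) / 6) =
      ((3 : ℝ) ^ (3 / 4 : ℝ)) ^ 2 * (√(5 + √3) * √(5 + √3)) / 36 := by ring
  rw [e, h1, h2]
  linear_combination (-1 / 12 : ℝ) * hs

end Pool.Agent.R165.Metric
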