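import Pool.Agent.R165.Metric.Basic

set_option autoImplicit false

open scoped RealInnerProductSpace

namespace Pool.Agent.R165.Metric

variable {n : ℕ}

/-- The metric polytope: families with entries in `[0,1]` that satisfy the triangle inequalities. -/
def metricPolytope (n : ℕ) : Set (V n) :=
  {d | (∀ e, 0 ≤ d e ∧ d e ≤ 1) ∧
    ∀ i j k : Fin n, i ≠ j → j ≠ k → i ≠ k → 0 ≤ ent d i j + ent d j k - ent d i k}

lemma ent_mem {d : V n} (hd : d ∈ metricPolytope n) (i j : Fin n) :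
    0 ≤ ent d i j ∧ ent d i j ≤ 1 := by
  by_cases h : i = j
  · subst h; rw [ent_self]; norm_num
  · rw [ent_of_ne d h]; exact hd.1 _

/-- multi-affine inequality -/
lemma multi_affine {ι : Type*} (s : Finset ι) (x : ι → ℝ) (hx : ∀ j ∈ s, 0 ≤ x j ∧ x j ≤ 1) :
    ∀ k : ℤ, 0 ≤ (∑ j ∈ s, x j) ^ 2 - ∑ j ∈ s, x j ^ 2 - 2 * k * ∑ j ∈ s, x j + k * (k + 1) := by
  classical
  induction s using Finset.induction_on with
  | empty =>
    intro k
    simp only [Finset.sum_empty]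
    have : (0 : ℤ) ≤ k * (k + 1) := by
      rcases le_or_gt 0 k with h | h
      · positivity
      · exact mul_nonneg_of_nonpos_of_nonpos h.le (by omega)
    have h2 : (0 : ℝ) ≤ (k : ℝ) * (k + 1) := by exact_mod_cast this
    simpa using h2
  | insert a s ha ih =>
    intro k
    have hs : ∀ j ∈ s, 0 ≤ x j ∧ x j ≤ 1 := fun j hj => hx j (Finset.mem_insert_of_mem hj)
    have h1 := ih hs k
    have h2 := ih hs (k - 1)
    obtain ⟨h3, h4⟩ := hx a (Finset.mem_insert_self a s)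
    rw [Finset.sum_insert ha, Finset.sum_insert ha]
    push_cast at h2
    have e : (x a + ∑ j ∈ s, x j) ^ 2 - (x a ^ 2 + ∑ j ∈ s, x j ^ 2) -
        2 * k * (x a + ∑ j ∈ s, x j) + k * (k + 1) =
        (1 - x a) * ((∑ j ∈ s, x j) ^ 2 - ∑ j ∈ s, x j ^ 2 - 2 * k * ∑ j ∈ s, x j + k * (k + 1)) +
        x a * ((∑ j ∈ s, x j) ^ 2 - ∑ j ∈ s, x j ^ 2 - 2 * (k - 1) * ∑ j ∈ s, x j +
          (k - 1) * (k - 1 + 1)) := by ring
    rw [e]
    exact add_nonneg (mul_nonneg (by linarith) h1) (mul_nonneg h3 h2)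

lemma degree_ineq (n : ℕ) {ι : Type*} (s : Finset ι) (x : ι → ℝ)
    (hx : ∀ j ∈ s, 0 ≤ x j ∧ x j ≤ 1) :
    0 ≤ (∑ j ∈ s, x j) ^ 2 - n * ∑ j ∈ s, x j + ((n ^ 2 / 4 : ℕ) : ℝ) +
      ∑ j ∈ s, (x j - x j ^ 2) := by
  rcases Nat.even_or_odd' n with ⟨k, hk | hk⟩
  · have h1 : ((n ^ 2 / 4 : ℕ) : ℝ) = k ^ 2 := by
      rw [hk]
      have : (2 * k) ^ 2 / 4 = k ^ 2 := by
        rw [mul_pow]; norm_num
      rw [this]; push_cast; ring
    rw [h1, hk]
    have h2 : 0 ≤ ∑ j ∈ s, (x j - x j ^ 2) :=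
      Finset.sum_nonneg fun j hj => by nlinarith [hx j hj]
    push_cast
    nlinarith [sq_nonneg (∑ j ∈ s, x j - k)]
  · have h1 : ((n ^ 2 / 4 : ℕ) : ℝ) = k * (k + 1) := by
      rw [hk]
      have : (2 * k + 1) ^ 2 / 4 = k * (k + 1) := by
        have : (2 * k + 1) ^ 2 = 4 * (k * (k + 1)) + 1 := by ring
        rw [this]; omega
      rw [this]; push_cast; ring
    rw [h1, hk]
    have := multi_affine s x hx k
    rw [Finset.sum_sub_distrib]
    push_cast at this ⊢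
    nlinarith

/-- the quadratic form of the maximal ellipsoid (in terms of `v = d - c`) -/
noncomputable def Q (n : ℕ) (δ : ℝ) (d : V n) : ℝ :=
  (1 / (1 - δ) + (3 * n - 4) / ((n - 2) * δ)) * ∑ e, (d e - δ) ^ 2 -
    1 / ((n - 2) * δ) * ∑ i, (deg d i - (n - 1) * δ) ^ 2

/-- the maximum of `Q` over the metric polytope -/
noncomputable def Qmax (n : ℕ) (δ : ℝ) : ℝ :=
  n * (n - 1) * δ / (2 * (1 - δ)) + ((n ^ 2 / 4 : ℕ) : ℝ) * (2 - 3 * δ) / (δ * (1 - δ))

lemma triple_ineq (δ x y z : ℝ) (h0 : 0 < δ) (h1 : δ < 1) (hx : x ≤ 1) (hy : y ≤ 1) (hz : z ≤ 1)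
    (hu : 0 ≤ x + y - z) (hv : 0 ≤ x + z - y) (hw : 0 ≤ y + z - x) :
    1 / (1 - δ) * ((x - δ) ^ 2 + (y - δ) ^ 2 + (z - δ) ^ 2) +
      1 / δ * ((x + y - z - δ) ^ 2 + (x + z - y - δ) ^ 2 + (y + z - x - δ) ^ 2) ≤
      3 * δ / (1 - δ) + (2 / δ - 1 / (1 - δ)) * (x + y + z) := by
  have h2 : 0 < 1 - δ := by linarith
  obtain ⟨u, hu'⟩ : ∃ u, u = x + y - z := ⟨_, rfl⟩
  obtain ⟨v, hv'⟩ : ∃ v, v = x + z - y := ⟨_, rfl⟩
  obtain ⟨w, hw'⟩ : ∃ w, w = y + z - x := ⟨_, rfl⟩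
  have ex : x = (u + v) / 2 := by linarith
  have ey : y = (u + w) / 2 := by linarith
  have ez : z = (v + w) / 2 := by linarith
  have hu0 : 0 ≤ u := by linarith
  have hv0 : 0 ≤ v := by linarith
  have hw0 : 0 ≤ w := by linarith
  have key : 0 ≤ u * (2 - u) + v * (2 - v) + w * (2 - w) - (u * v + u * w + v * w) := by
    have a1 : 0 ≤ u * (2 - u - v) := mul_nonneg hu0 (by linarith)
    have a2 : 0 ≤ u * (2 - u - w) := mul_nonneg hu0 (by linarith)
    have a3 : 0 ≤ v * (2 - u - v) := mul_nonneg hv0 (by linarith)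
    have a4 : 0 ≤ v * (2 - v - w) := mul_nonneg hv0 (by linarith)
    have a5 : 0 ≤ w * (2 - u - w) := mul_nonneg hw0 (by linarith)
    have a6 : 0 ≤ w * (2 - v - w) := mul_nonneg hw0 (by linarith)
    nlinarith
  have key2 : 0 ≤ u * v + u * w + v * w := by positivity
  have e : 3 * δ / (1 - δ) + (2 / δ - 1 / (1 - δ)) * (x + y + z) -
      (1 / (1 - δ) * ((x - δ) ^ 2 + (y - δ) ^ 2 + (z - δ) ^ 2) +
      1 / δ * ((x + y - z - δ) ^ 2 + (x + z - y - δ) ^ 2 + (y + z - x - δ) ^ 2)) =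
      (1 / (2 * (1 - δ)) + 1 / δ) *
        (u * (2 - u) + v * (2 - v) + w * (2 - w) - (u * v + u * w + v * w)) +
      1 / δ * (u * v + u * w + v * w) := by
    rw [ex, ey, ez]
    field_simp
    ring
  have h3 : 0 ≤ (1 / (2 * (1 - δ)) + 1 / δ) *
        (u * (2 - u) + v * (2 - v) + w * (2 - w) - (u * v + u * w + v * w)) +
      1 / δ * (u * v + u * w + v * w) := by positivity
  linarith

lemma sum_sq_sub (d : V n) (δ : ℝ) :
    ∑ e, (d e - δ) ^ 2 = ∑ e, d e ^ 2 - 2 * δ * tot d + n * (n - 1) / 2 * δ ^ 2 := by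
  have h : ∀ e, (d e - δ) ^ 2 = d e ^ 2 - 2 * δ * d e + δ ^ 2 := fun e => by ring
  simp_rw [h, Finset.sum_add_distrib, Finset.sum_sub_distrib, ← Finset.mul_sum]
  simp only [Finset.sum_const, Finset.card_univ, nsmul_eq_mul]
  rw [card_pair_eq]
  rfl

lemma sum_deg_sub (d : V n) (δ : ℝ) :
    ∑ i, (deg d i - (n - 1) * δ) ^ 2 =
      ∑ i, deg d i ^ 2 - 4 * (n - 1) * δ * tot d + n * ((n - 1) * δ) ^ 2 := by
  have h : ∀ i, (deg d i - (n - 1) * δ) ^ 2 =
      deg d i ^ 2 - 2 * ((n - 1) * δ) * deg d i + ((n - 1) * δ) ^ 2 := fun e => by ring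
  simp_rw [h, Finset.sum_add_distrib, Finset.sum_sub_distrib, ← Finset.mul_sum, sum_deg]
  simp
  ring

/-- case 1: small total -/
lemma Q_le_small (hn : 3 ≤ n) {δ : ℝ} (h0 : 0 < δ) (h1 : δ < 1) {d : V n}
    (hd : d ∈ metricPolytope n) :
    Q n δ d ≤ n * (n - 1) * δ / (2 * (1 - δ)) + (2 / δ - 1 / (1 - δ)) * tot d := by
  have h3 : (3 : ℝ) ≤ n := by exact_mod_cast hn
  have hn2 : (0 : ℝ) < n - 2 := by linarith
  have h1' : 0 < 1 - δ := by linarith
  -- the sum over ordered triples of the quadratic form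
  set v : V n := d - cst δ with hv
  have hve : ∀ e, v e = d e - δ := fun e => by simp [hv]
  have hvv : ⟪v, v⟫ = ∑ e, (d e - δ) ^ 2 := by
    rw [inner_eq]
    exact Finset.sum_congr rfl fun e _ => by rw [hve]; ring
  have hvd : ∀ i, deg v i = deg d i - (n - 1) * δ := fun i => by
    rw [hv, deg_sub, deg_cst]
  have hT := tsum3_tri_mul v v
  have hvent : ∀ i j, i ≠ j → ent v i j = ent d i j - δ := by
    intro i j h
    rw [ent_of_ne v h, ent_of_ne d h, hve]
  -- abbreviations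
  have hQ : 6 * (n - 2) * Q n δ d =
      1 / (1 - δ) * (3 * (2 * (n - 2) * ⟪v, v⟫)) +
      1 / δ * (3 * tsum3 (fun i j k => tri v i j k * tri v i j k)) := by
    rw [hT, hvv, Q]
    have : ∑ i, deg v i * deg v i = ∑ i, (deg d i - (n - 1) * δ) ^ 2 :=
      Finset.sum_congr rfl fun i _ => by rw [hvd]; ring
    rw [this]
    field_simp
    ring
  have b1 : tsum3 (fun i j _ => ent v i j * ent v i j) = 2 * (n - 2) * ⟪v, v⟫ := tsum3_ent_mul v v
  have b2 : tsum3 (fun _ j k => ent v j k * ent v j k) = 2 * (n - 2) * ⟪v, v⟫ :=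
    (tsum3_rot (fun i j _ => ent v i j * ent v i j)).trans b1
  have b3 : tsum3 (fun i _ k => ent v i k * ent v i k) = 2 * (n - 2) * ⟪v, v⟫ :=
    (tsum3_p23 (fun i j _ => ent v i j * ent v i j)).trans b1
  have c2 : tsum3 (fun i j k => tri v j i k * tri v j i k) =
      tsum3 (fun i j k => tri v i j k * tri v i j k) :=
    tsum3_p12 (fun i j k => tri v i j k * tri v i j k)
  have c3 : tsum3 (fun i j k => tri v i k j * tri v i k j) =
      tsum3 (fun i j k => tri v i j k * tri v i j k) :=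
    tsum3_p23 (fun i j k => tri v i j k * tri v i j k)
  have hsum : 6 * (n - 2) * Q n δ d = tsum3 (fun i j k =>
      1 / (1 - δ) * (ent v i j * ent v i j + ent v j k * ent v j k + ent v i k * ent v i k) +
      1 / δ * (tri v i j k * tri v i j k + tri v j i k * tri v j i k +
        tri v i k j * tri v i k j)) := by
    rw [tsum3_add, tsum3_mul, tsum3_mul, tsum3_add, tsum3_add, tsum3_add, tsum3_add, b1, b2, b3,
      c2, c3, hQ]
    ring
  have hle : tsum3 (fun i j k =>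
      1 / (1 - δ) * (ent v i j * ent v i j + ent v j k * ent v j k + ent v i k * ent v i k) +
      1 / δ * (tri v i j k * tri v i j k + tri v j i k * tri v j i k +
        tri v i k j * tri v i k j)) ≤
      tsum3 (fun i j k => 3 * δ / (1 - δ) * 1 +
        (2 / δ - 1 / (1 - δ)) * (ent d i j + ent d j k + ent d i k)) := by
    refine tsum3_le _ _ fun i j k hij hjk hik => ?_
    have t1 := hd.2 i j k hij hjk hik
    have t2 := hd.2 j i k hij.symm hik hjk
    have t3 := hd.2 i k j hik hjk.symm hij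
    have := triple_ineq δ (ent d i j) (ent d j k) (ent d i k) h0 h1 (ent_mem hd i j).2
      (ent_mem hd j k).2 (ent_mem hd i k).2 (by linarith)
      (by rw [ent_comm d j i] at t2; linarith) (by rw [ent_comm d k j] at t3; linarith)
    unfold tri
    rw [ent_comm v j i, ent_comm v k j, hvent i j hij, hvent j k hjk, hvent i k hik]
    refine le_trans (le_of_eq ?_) (this.trans (le_of_eq ?_))
    · ring
    · ring
  have hone : tsum3 (fun _ _ _ : Fin n => (1 : ℝ)) = n * (n - 1) * (n - 2) := by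
    have e1 : tsum3 (fun _ _ _ : Fin n => (1 : ℝ)) =
        tsum3 (fun (i j _ : Fin n) => if i = j then (0 : ℝ) else 1) := by
      unfold tsum3
      refine Finset.sum_congr rfl fun i _ => Finset.sum_congr rfl fun j _ =>
        Finset.sum_congr rfl fun k _ => ?_
      by_cases h : i ≠ j ∧ j ≠ k ∧ i ≠ k
      · rw [if_pos h, if_pos h]; simp [h.1]
      · rw [if_neg h, if_neg h]
    rw [e1, tsum3_edge (fun i j => if i = j then (0 : ℝ) else 1) (by simp)]
    have e2 : ∀ i j : Fin n, (if i = j then (0 : ℝ) else 1) = 1 - if j = i then 1 else 0 := by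
      intro i j
      by_cases h : i = j
      · subst h; simp
      · simp [h, Ne.symm h]
    simp_rw [e2, Finset.sum_sub_distrib]
    simp
    ring
  have s1 : tsum3 (fun i j _ => ent d i j) = 2 * (n - 2) * tot d := by
    rw [tsum3_edge (ent d) (ent_self d), sum_ent']; ring
  have s2 : tsum3 (fun _ j k => ent d j k) = 2 * (n - 2) * tot d :=
    (tsum3_rot (fun i j _ => ent d i j)).trans s1
  have s3 : tsum3 (fun i _ k => ent d i k) = 2 * (n - 2) * tot d :=
    (tsum3_p23 (fun i j _ => ent d i j)).trans s1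
  have hR : tsum3 (fun i j k => 3 * δ / (1 - δ) * 1 +
        (2 / δ - 1 / (1 - δ)) * (ent d i j + ent d j k + ent d i k)) =
      6 * (n - 2) * (n * (n - 1) * δ / (2 * (1 - δ)) + (2 / δ - 1 / (1 - δ)) * tot d) := by
    rw [tsum3_add, tsum3_mul (3 * δ / (1 - δ)) (fun _ _ _ => 1), hone, tsum3_mul, tsum3_add,
      tsum3_add, s1, s2, s3]
    field_simp
    ring
  rw [hR, ← hsum] at hle
  exact le_of_mul_le_mul_left hle (by positivity)

/-- case 2: large total -/
lemma Q_le_large (hn : 3 ≤ n) {δ : ℝ} (h0 : 1 / 2 ≤ δ) (h1 : δ < 1) {d : V n}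
    (hd : ∀ e, 0 ≤ d e ∧ d e ≤ 1) (hS : ((n ^ 2 / 4 : ℕ) : ℝ) ≤ tot d) :
    Q n δ d ≤ Qmax n δ := by
  have h3 : (3 : ℝ) ≤ n := by exact_mod_cast hn
  have hn2 : (0 : ℝ) < n - 2 := by linarith
  have h1' : 0 < 1 - δ := by linarith
  have h0' : 0 < δ := by linarith
  set E : ℝ := ((n ^ 2 / 4 : ℕ) : ℝ) with hE
  have hdeg : ∀ i, n * deg d i - E - ∑ j, (ent d i j - ent d i j ^ 2) ≤ deg d i ^ 2 := by
    intro i
    have hx : ∀ j ∈ (Finset.univ : Finset (Fin n)), 0 ≤ ent d i j ∧ ent d i j ≤ 1 := by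
      intro j _
      by_cases h : i = j
      · subst h; rw [ent_self]; norm_num
      · rw [ent_of_ne d h]; exact hd _
    have := degree_ineq n Finset.univ (fun j => ent d i j) hx
    rw [deg_eq]
    linarith
  have hP : ∑ i, ∑ j, (ent d i j - ent d i j ^ 2) = 2 * ∑ e, (d e - d e ^ 2) :=
    sum_ent d (fun t => t - t ^ 2) (by norm_num)
  have hP0 : 0 ≤ ∑ e, (d e - d e ^ 2) :=
    Finset.sum_nonneg fun e _ => by nlinarith [hd e]
  have hD : 2 * n * tot d - n * E - 2 * ∑ e, (d e - d e ^ 2) ≤ ∑ i, deg d i ^ 2 := by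
    have := Finset.sum_le_sum (fun i (_ : i ∈ (Finset.univ : Finset (Fin n))) => hdeg i)
    simp only [Finset.sum_sub_distrib (f := fun i => n * deg d i - E),
      Finset.sum_sub_distrib (f := fun i => n * deg d i), ← Finset.mul_sum, sum_deg] at this
    rw [hP] at this
    simp at this
    have hs : ∑ e, (d e - d e ^ 2) = ∑ e, d e - ∑ e, d e ^ 2 := by
      rw [Finset.sum_sub_distrib]
    rw [hs]
    linarith
  have hsq : ∑ e, d e ^ 2 = tot d - ∑ e, (d e - d e ^ 2) := by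
    rw [Finset.sum_sub_distrib]; unfold tot; ring
  set P := ∑ e, (d e - d e ^ 2) with hPdef
  set S := tot d with hSdef
  set D2 := ∑ i, deg d i ^ 2 with hD2
  rw [Q, sum_sq_sub, sum_deg_sub, hsq, Qmax, ← hE]
  have hA : 0 < 1 / (1 - δ) := by positivity
  have hB : 0 < 1 / ((n - 2) * δ) := by positivity
  have e1 : (3 * (n : ℝ) - 4) / ((n - 2) * δ) = (3 * n - 4) * (1 / ((n - 2) * δ)) := by ring
  rw [e1]
  set B := 1 / (((n : ℝ) - 2) * δ) with hBdef
  set A := 1 / (1 - δ) with hAdef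
  have hAδ : A * (1 - δ) = 1 := by rw [hAdef]; field_simp
  have hBδ : B * ((n - 2) * δ) = 1 := by rw [hBdef]; field_simp
  have e2 : (n : ℝ) * (n - 1) * δ / (2 * (1 - δ)) + E * (2 - 3 * δ) / (δ * (1 - δ)) =
      n * (n - 1) / 2 * δ * A + E * (2 - 3 * δ) * (A * (B * (n - 2))) := by
    rw [hAdef, hBdef]; field_simp
  rw [e2]
  -- the bound obtained from `hD`
  have step : (A + (3 * n - 4) * B) * (S - P - 2 * δ * S + n * (n - 1) / 2 * δ ^ 2) -
      B * (D2 - 4 * (n - 1) * δ * S + n * ((n - 1) * δ) ^ 2) ≤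
      (A + (3 * n - 4) * B) * (S - P - 2 * δ * S + n * (n - 1) / 2 * δ ^ 2) -
      B * ((2 * n * S - n * E - 2 * P) - 4 * (n - 1) * δ * S + n * ((n - 1) * δ) ^ 2) := by
    have := mul_le_mul_of_nonneg_left hD hB.le
    linarith
  refine step.trans ?_
  -- slope
  have hslope : (A + (3 * n - 4) * B) * (1 - 2 * δ) - B * (2 * n - 4 * (n - 1) * δ) ≤ 0 := by
    have : (A + (3 * n - 4) * B) * (1 - 2 * δ) - B * (2 * n - 4 * (n - 1) * δ) =
        A * (1 - 2 * δ) + B * (n * (1 - 2 * δ) - 4 * (1 - δ)) := by ring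
    rw [this]
    have h5 : n * (1 - 2 * δ) ≤ 0 := mul_nonpos_of_nonneg_of_nonpos (by linarith) (by linarith)
    have h6 : A * (1 - 2 * δ) ≤ 0 := mul_nonpos_of_nonneg_of_nonpos hA.le (by linarith)
    have h7 : B * (n * (1 - 2 * δ) - 4 * (1 - δ)) ≤ 0 :=
      mul_nonpos_of_nonneg_of_nonpos hB.le (by linarith)
    linarith
  have hslope2 := mul_nonneg_of_nonpos_of_nonpos hslope (by linarith : E - S ≤ 0)
  have hPterm : 0 ≤ (A + (3 * n - 4) * B - 2 * B) * P := by
    refine mul_nonneg ?_ hP0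
    have : 0 ≤ (3 * n - 6) * B := mul_nonneg (by linarith) hB.le
    linarith
  have hfin : n * (n - 1) / 2 * δ * A + E * (2 - 3 * δ) * (A * (B * (n - 2))) =
      (A + (3 * n - 4) * B) * (E - 2 * δ * E + n * (n - 1) / 2 * δ ^ 2) -
      B * (n * E - 4 * (n - 1) * δ * E + n * ((n - 1) * δ) ^ 2) := by
    rw [hAdef, hBdef]
    field_simp
    ring
  rw [hfin]
  nlinarith [hslope2, hPterm]

/-- **Upper bound**: `Q ≤ Qmax` on the metric polytope. -/
theorem Q_le (hn : 3 ≤ n) {δ : ℝ} (h0 : 1 / 2 ≤ δ) (h1 : δ ≤ 2 / 3) {d : V n}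
    (hd : d ∈ metricPolytope n) : Q n δ d ≤ Qmax n δ := by
  rcases le_total (tot d) ((n ^ 2 / 4 : ℕ) : ℝ) with h | h
  · refine (Q_le_small hn (by linarith) (by linarith) hd).trans ?_
    rw [Qmax]
    have h0' : 0 < δ := by linarith
    have h1' : 0 < 1 - δ := by linarith
    have e : ((n ^ 2 / 4 : ℕ) : ℝ) * (2 - 3 * δ) / (δ * (1 - δ)) =
        (2 / δ - 1 / (1 - δ)) * ((n ^ 2 / 4 : ℕ) : ℝ) := by field_simp; ring
    rw [e]
    have h5 : 0 ≤ 2 / δ - 1 / (1 - δ) := by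
      have : 2 / δ - 1 / (1 - δ) = (2 - 3 * δ) / (δ * (1 - δ)) := by field_simp; ring
      rw [this]
      apply div_nonneg <;> nlinarith
    have := mul_le_mul_of_nonneg_left h h5
    linarith
  · exact Q_le_large hn h0 (by linarith) hd.1 h

end Pool.Agent.R165.Metric
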