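import Mathlib

/-! John's criterion (sufficiency and uniqueness) in a finite-dimensional Euclidean space. -/

set_option autoImplicit false

open MeasureTheory Metric
open scoped RealInnerProductSpace

namespace Pool.Agent.R165.John

variable {V : Type*} [NormedAddCommGroup V] [InnerProductSpace ℝ V] [FiniteDimensional ℝ V]

/-- the ellipsoid `c + A(B)`, `B` the closed unit ball -/
def ellipsoid (A : V →ₗ[ℝ] V) (c : V) : Set V := (fun x => c + A x) '' closedBall 0 1

lemma support_le_iff (A : V →ₗ[ℝ] V) (c a : V) (b : ℝ) :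
    (∀ x ∈ ellipsoid A c, ⟪a, x⟫ ≤ b) ↔ ⟪a, c⟫ + ‖A.adjoint a‖ ≤ b := by
  constructor
  · intro h
    by_cases h0 : A.adjoint a = 0
    · have := h c ⟨0, by simp, by simp⟩
      rw [h0, norm_zero, add_zero]; exact this
    · have hn : 0 < ‖A.adjoint a‖ := norm_pos_iff.2 h0
      have := h (c + A ((‖A.adjoint a‖)⁻¹ • A.adjoint a)) ⟨_, by
        rw [mem_closedBall_zero_iff, norm_smul, norm_inv, norm_norm, inv_mul_cancel₀ hn.ne'], rfl⟩
      rw [inner_add_right, ← LinearMap.adjoint_inner_left, inner_smul_right,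
        real_inner_self_eq_norm_sq, pow_two, ← mul_assoc, inv_mul_cancel₀ hn.ne', one_mul] at this
      exact this
  · rintro h _ ⟨x, hx, rfl⟩
    rw [mem_closedBall_zero_iff] at hx
    simp only [inner_add_right]
    rw [← LinearMap.adjoint_inner_left]
    have h1 := real_inner_le_norm (A.adjoint a) x
    have h2 : ‖A.adjoint a‖ * ‖x‖ ≤ ‖A.adjoint a‖ := mul_le_of_le_one_right (norm_nonneg _) hx
    linarith

theorem john_bound {ι : Type*} [Fintype ι] (a : ι → V) (b μ : ι → ℝ) (R : V →ₗ[ℝ] V)
    (hR : R.IsSymmetric) (hRdet : LinearMap.det R ≠ 0) (hμ : ∀ k, 0 < μ k)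
    (hs : ∀ k, 0 < ‖R (a k)‖) (h0 : ∑ k, μ k • a k = 0)
    (hN : ∑ k, μ k * b k = Module.finrank ℝ V)
    (H : ∀ x y, ∑ k, μ k / ‖R (a k)‖ * (⟪a k, R x⟫ * ⟪a k, R y⟫) = ⟪x, y⟫)
    (A : V →ₗ[ℝ] V) (c : V) (hA : ∀ k, ⟪a k, c⟫ + ‖A.adjoint (a k)‖ ≤ b k) :
    |LinearMap.det A| ≤ |LinearMap.det R| ∧
      (|LinearMap.det R| ≤ |LinearMap.det A| → (∀ x, A (A.adjoint x) = R (R x)) ∧
        ∀ k, ⟪a k, c⟫ + ‖R (a k)‖ = b k) := by
  classical
  by_cases hdA : LinearMap.det A = 0
  · rw [hdA, abs_zero]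
    refine ⟨abs_nonneg _, fun h => absurd (abs_nonpos_iff.1 h) hRdet⟩
  set Re : V ≃ₗ[ℝ] V := R.equivOfDetNeZero hRdet with hRe
  have hReR : ∀ x, Re x = R x := fun x => rfl
  have hR1 : ∀ x, R (Re.symm x) = x := fun x => by rw [← hReR, LinearEquiv.apply_symm_apply]
  set B : V →ₗ[ℝ] V := (Re.symm : V →ₗ[ℝ] V) ∘ₗ A with hB
  have hRB : ∀ x, R (B x) = A x := fun x => by simp [hB, hR1]
  have hdetB : LinearMap.det R * LinearMap.det B = LinearMap.det A := by
    rw [← LinearMap.det_comp]
    congr 1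
    ext x
    simp [hRB]
  have hBd : LinearMap.det B ≠ 0 := by
    intro h; rw [h, mul_zero] at hdetB; exact hdA hdetB.symm
  have hBadj : ∀ x, B.adjoint (R x) = A.adjoint x := by
    intro x
    refine ext_inner_right ℝ fun y => ?_
    rw [LinearMap.adjoint_inner_left, LinearMap.adjoint_inner_left, hR, hRB]
  -- the symmetric operator
  set S : V →ₗ[ℝ] V := B ∘ₗ B.adjoint with hS
  have hSs : S.IsSymmetric := by
    intro x y
    simp only [hS, LinearMap.comp_apply]
    rw [← LinearMap.adjoint_inner_right, LinearMap.adjoint_inner_left]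
  obtain ⟨N, hNd⟩ : ∃ N, Module.finrank ℝ V = N := ⟨_, rfl⟩
  set u := hSs.eigenvectorBasis hNd with hu
  set lam := hSs.eigenvalues hNd with hlam
  have hSu : ∀ i, S (u i) = lam i • u i := fun i => by
    have := hSs.apply_eigenvectorBasis hNd i
    simpa only [RCLike.ofReal_real_eq_id, id] using this
  have hlam1 : ∀ i, lam i = ‖B.adjoint (u i)‖ ^ 2 := by
    intro i
    have h1 : ⟪S (u i), u i⟫ = lam i := by
      rw [hSu, inner_smul_left, real_inner_self_eq_norm_sq, u.norm_eq_one]
      simp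
    rw [← h1, hS, LinearMap.comp_apply, ← LinearMap.adjoint_inner_right, real_inner_self_eq_norm_sq]
  have hdetS : LinearMap.det B ^ 2 = ∏ i, lam i := by
    have h1 : LinearMap.det S = ∏ i, lam i := by
      have := hSs.det_eq_prod_eigenvalues hNd
      simpa using this
    have h2 := LinearMap.normDet_sq B
    have h3 : LinearMap.det S = LinearMap.det B * LinearMap.det (LinearMap.adjoint B) :=
      LinearMap.det_comp B (LinearMap.adjoint B)
    have h4 : LinearMap.det (LinearMap.adjoint B ∘ₗ B) =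
      LinearMap.det (LinearMap.adjoint B) * LinearMap.det B := LinearMap.det_comp _ B
    rw [h4, LinearMap.normDet_eq_abs_det B, sq_abs] at h2
    rw [← h1, h3, mul_comm (LinearMap.det B)]
    exact_mod_cast h2
  have hlampos : ∀ i, 0 < lam i := by
    intro i
    rw [hlam1]
    have : 0 ≤ ‖B.adjoint (u i)‖ ^ 2 := by positivity
    refine lt_of_le_of_ne this fun h => hBd ?_
    have h2 : ∏ i, lam i = 0 := Finset.prod_eq_zero (Finset.mem_univ i) (by rw [hlam1, ← h])
    rw [← hdetS] at h2
    exact pow_eq_zero_iff (two_ne_zero) |>.1 h2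
  set sq : Fin N → ℝ := fun i => ‖B.adjoint (u i)‖ with hsq
  have hsqpos : ∀ i, 0 < sq i := by
    intro i
    have := hlampos i
    rw [hlam1] at this
    exact lt_of_le_of_ne (norm_nonneg _) (by rintro h; simp only [hsq] at h; rw [← h] at this; simp at this)
  -- the second orthonormal family
  set w : Fin N → V := fun i => (sq i)⁻¹ • B.adjoint (u i) with hw
  have hwon : Orthonormal ℝ w := by
    rw [orthonormal_iff_ite]
    intro i j
    simp only [hw, inner_smul_left, inner_smul_right, conj_trivial]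
    have h1 : ⟪B.adjoint (u i), B.adjoint (u j)⟫ = if i = j then lam i else 0 := by
      rw [LinearMap.adjoint_inner_right]
      have : B (B.adjoint (u i)) = lam i • u i := hSu i
      rw [this, inner_smul_left]
      have h2 := (orthonormal_iff_ite.1 u.orthonormal) i j
      rw [h2]
      split_ifs <;> simp
    rw [h1]
    split_ifs with hij
    · subst hij
      rw [hlam1]
      have := (hsqpos i).ne'
      simp only [hsq] at this ⊢
      field_simp
    · simp
  have hwb : ∀ x : V, ∑ i, ⟪x, w i⟫ ^ 2 ≤ ‖x‖ ^ 2 := by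
    intro x
    have := hwon.sum_inner_products_le (x := x) (s := Finset.univ)
    simpa [Real.norm_eq_abs, sq_abs, real_inner_comm] using this
  have hub : ∀ x : V, ∑ i, ⟪x, u i⟫ ^ 2 ≤ ‖x‖ ^ 2 := by
    intro x
    have := u.orthonormal.sum_inner_products_le (x := x) (s := Finset.univ)
    simpa [Real.norm_eq_abs, sq_abs, real_inner_comm] using this
  have hsqval : ∀ i, sq i = ⟪u i, B (w i)⟫ := by
    intro i
    rw [← LinearMap.adjoint_inner_left]
    simp only [hw, inner_smul_right, real_inner_self_eq_norm_sq]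
    have := (hsqpos i).ne'
    simp only [hsq] at this ⊢
    field_simp
  have hsum : ∑ i, sq i ≤ N := by
    have e1 : ∀ i, sq i = ∑ k, μ k / ‖R (a k)‖ * (⟪R (a k), u i⟫ * ⟪A.adjoint (a k), w i⟫) := by
      intro i
      rw [hsqval, ← H]
      refine Finset.sum_congr rfl fun k _ => ?_
      rw [hRB, ← hR, LinearMap.adjoint_inner_left]
    calc ∑ i, sq i = ∑ k, μ k / ‖R (a k)‖ * ∑ i, (⟪R (a k), u i⟫ * ⟪A.adjoint (a k), w i⟫) := by
          simp_rw [e1]
          rw [Finset.sum_comm]
          simp_rw [Finset.mul_sum]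
      _ ≤ ∑ k, μ k / ‖R (a k)‖ * (‖R (a k)‖ * ‖A.adjoint (a k)‖) := by
          refine Finset.sum_le_sum fun k _ => mul_le_mul_of_nonneg_left ?_
            (div_nonneg (hμ k).le (norm_nonneg _))
          have hcs := Finset.sum_mul_sq_le_sq_mul_sq Finset.univ
            (fun i => ⟪R (a k), u i⟫) (fun i => ⟪A.adjoint (a k), w i⟫)
          have h3 : (∑ i, ⟪R (a k), u i⟫ * ⟪A.adjoint (a k), w i⟫) ^ 2 ≤
              (‖R (a k)‖ * ‖A.adjoint (a k)‖) ^ 2 := by
            rw [mul_pow]
            refine hcs.trans ?_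
            exact mul_le_mul (hub _) (hwb _) (Finset.sum_nonneg fun i _ => sq_nonneg _)
              (sq_nonneg _)
          exact (abs_le_of_sq_le_sq' h3 (by positivity)).2
      _ = ∑ k, μ k * ‖A.adjoint (a k)‖ := by
          refine Finset.sum_congr rfl fun k _ => ?_
          have := (hs k).ne'
          field_simp
      _ ≤ ∑ k, μ k * (b k - ⟪a k, c⟫) := by
          refine Finset.sum_le_sum fun k _ => mul_le_mul_of_nonneg_left ?_ (hμ k).le
          linarith [hA k]
      _ = N := by
          simp_rw [mul_sub, Finset.sum_sub_distrib]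
          rw [hN, hNd]
          have : ∑ k, μ k * ⟪a k, c⟫ = ⟪∑ k, μ k • a k, c⟫ := by
            rw [sum_inner]
            simp [inner_smul_left]
          rw [this, h0, inner_zero_left, sub_zero]
  have hprod : |LinearMap.det B| = ∏ i, sq i := by
    have h1 : |LinearMap.det B| ^ 2 = (∏ i, sq i) ^ 2 := by
      rw [sq_abs, hdetS, ← Finset.prod_pow]
      exact Finset.prod_congr rfl fun i _ => hlam1 i
    exact (sq_eq_sq₀ (abs_nonneg _) (Finset.prod_nonneg fun i _ => (hsqpos i).le)).1 h1
  have hlog : Real.log |LinearMap.det B| = ∑ i, Real.log (sq i) := by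
    rw [hprod, Real.log_prod (fun i _ => (hsqpos i).ne')]
  have hlogle : ∀ i, Real.log (sq i) ≤ sq i - 1 := fun i => by
    have := Real.log_le_sub_one_of_pos (hsqpos i); exact this
  have hle0 : Real.log |LinearMap.det B| ≤ 0 := by
    rw [hlog]
    have : ∑ i, Real.log (sq i) ≤ ∑ i, (sq i - 1) := Finset.sum_le_sum fun i _ => hlogle i
    simp only [Finset.sum_sub_distrib, Finset.sum_const, Finset.card_univ, Fintype.card_fin,
      nsmul_eq_mul, mul_one] at this
    linarith
  have hBabs : 0 < |LinearMap.det B| := abs_pos.2 hBd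
  have hRabs : 0 < |LinearMap.det R| := abs_pos.2 hRdet
  have hBle : |LinearMap.det B| ≤ 1 := by
    by_contra hcon
    push Not at hcon
    have := Real.log_pos hcon
    linarith
  have hAabs : |LinearMap.det A| = |LinearMap.det R| * |LinearMap.det B| := by
    rw [← abs_mul, hdetB]
  refine ⟨by rw [hAabs]; exact mul_le_of_le_one_right hRabs.le hBle, fun hge => ?_⟩
  have hB1 : |LinearMap.det B| = 1 := by
    refine le_antisymm hBle ?_
    rw [hAabs] at hge
    by_contra hcon
    push Not at hcon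
    have := mul_lt_mul_of_pos_left hcon hRabs
    linarith
  have hsum0 : ∑ i, Real.log (sq i) = 0 := by rw [← hlog, hB1, Real.log_one]
  have hone : ∀ i, sq i = 1 := by
    have h1 : ∑ i, (sq i - 1 - Real.log (sq i)) = 0 := by
      refine le_antisymm ?_ (Finset.sum_nonneg fun i _ => by linarith [hlogle i])
      simp only [Finset.sum_sub_distrib, Finset.sum_const, Finset.card_univ, Fintype.card_fin,
        nsmul_eq_mul, mul_one, hsum0]
      linarith
    have h2 := (Finset.sum_eq_zero_iff_of_nonneg (fun i _ => by linarith [hlogle i])).1 h1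
    intro i
    have h3 := h2 i (Finset.mem_univ i)
    by_contra hne
    have := Real.log_lt_sub_one_of_pos (hsqpos i) hne
    linarith
  have hSid : ∀ x, B (B.adjoint x) = x := by
    have : S = LinearMap.id := by
      refine u.toBasis.ext fun i => ?_
      rw [OrthonormalBasis.coe_toBasis, hSu, hlam1]
      have := hone i
      simp only [hsq] at this
      rw [this]; simp
    intro x
    have h := congrArg (fun f : V →ₗ[ℝ] V => f x) this
    simpa [hS] using h
  have hAA : ∀ x, A (A.adjoint x) = R (R x) := by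
    intro x
    rw [← hBadj, ← hRB, hSid]
  refine ⟨hAA, fun k => ?_⟩
  have hnorm : ∀ k, ‖A.adjoint (a k)‖ = ‖R (a k)‖ := by
    intro k
    have h1 : ‖A.adjoint (a k)‖ ^ 2 = ‖R (a k)‖ ^ 2 := by
      rw [← real_inner_self_eq_norm_sq, ← real_inner_self_eq_norm_sq,
        LinearMap.adjoint_inner_left, hAA, ← hR]
    exact (sq_eq_sq₀ (norm_nonneg _) (norm_nonneg _)).1 h1
  have hsumk : ∑ k, μ k * (b k - ⟪a k, c⟫ - ‖R (a k)‖) = 0 := by
    refine le_antisymm ?_ (Finset.sum_nonneg fun k _ => mul_nonneg (hμ k).le (by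
      have := hA k; rw [hnorm] at this; linarith))
    have h1 : ∑ k, μ k * (b k - ⟪a k, c⟫) = N := by
      simp_rw [mul_sub, Finset.sum_sub_distrib]
      rw [hN, hNd]
      have : ∑ k, μ k * ⟪a k, c⟫ = ⟪∑ k, μ k • a k, c⟫ := by
        rw [sum_inner]
        simp [inner_smul_left]
      rw [this, h0, inner_zero_left, sub_zero]
    have h2 : ∑ k, μ k * ‖R (a k)‖ = N := by
      -- trace identity
      have e : ∀ k, μ k * ‖R (a k)‖ = μ k / ‖R (a k)‖ * ∑ i, ⟪R (a k), u i⟫ ^ 2 := by
        intro k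
        have : ∑ i, ⟪R (a k), u i⟫ ^ 2 = ‖R (a k)‖ ^ 2 := by
          have := u.sum_sq_norm_inner_left (R (a k))
          simpa [Real.norm_eq_abs, sq_abs, real_inner_comm] using this
        rw [this]
        have := (hs k).ne'
        field_simp
      simp_rw [e, Finset.mul_sum]
      rw [Finset.sum_comm]
      have e2 : ∀ i, ∑ k, μ k / ‖R (a k)‖ * ⟪R (a k), u i⟫ ^ 2 = 1 := by
        intro i
        have := H (u i) (u i)
        rw [real_inner_self_eq_norm_sq, u.norm_eq_one] at this
        rw [← one_pow 2, ← this]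
        refine Finset.sum_congr rfl fun k _ => ?_
        rw [hR, pow_two]
      simp [e2]
    have h3 : ∀ k, μ k * (b k - ⟪a k, c⟫ - ‖R (a k)‖) =
        μ k * (b k - ⟪a k, c⟫) - μ k * ‖R (a k)‖ := fun k => by ring
    simp_rw [h3, Finset.sum_sub_distrib]
    rw [h1, h2, sub_self]
  have h4 := (Finset.sum_eq_zero_iff_of_nonneg (fun k _ => mul_nonneg (hμ k).le (by
    have := hA k; rw [hnorm] at this; linarith))).1 hsumk k (Finset.mem_univ _)
  rcases mul_eq_zero.1 h4 with h | h
  · exact absurd h (hμ k).ne'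
  · linarith

/-- if `A A* = R²` with `R` symmetric and invertible then the ellipsoids of `A` and `R` agree -/
lemma ellipsoid_eq (A R : V →ₗ[ℝ] V) (hR : R.IsSymmetric) (hRdet : LinearMap.det R ≠ 0)
    (h : ∀ x, A (A.adjoint x) = R (R x)) (c : V) : ellipsoid A c = ellipsoid R c := by
  set Re : V ≃ₗ[ℝ] V := R.equivOfDetNeZero hRdet with hRe
  have hReR : ∀ x, Re x = R x := fun x => rfl
  have hR1 : ∀ x, R (Re.symm x) = x := fun x => by rw [← hReR, LinearEquiv.apply_symm_apply]
  set B : V →ₗ[ℝ] V := (Re.symm : V →ₗ[ℝ] V) ∘ₗ A with hB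
  have hRB : ∀ x, R (B x) = A x := fun x => by simp [hB, hR1]
  have hRinj : Function.Injective R := fun x y hxy => Re.injective hxy
  have hBadj : ∀ x, B.adjoint (R x) = A.adjoint x := by
    intro x
    refine ext_inner_right ℝ fun y => ?_
    rw [LinearMap.adjoint_inner_left, LinearMap.adjoint_inner_left, hR, hRB]
  have hBB : ∀ x, B (B.adjoint x) = x := by
    intro x
    apply hRinj
    rw [hRB]
    have h1 : B.adjoint x = A.adjoint (Re.symm x) := by rw [← hBadj, hR1]
    rw [h1, h, hR1]
  have hcomp : B ∘ₗ B.adjoint = LinearMap.id := LinearMap.ext hBB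
  have hcomp' : B.adjoint ∘ₗ B = LinearMap.id := by
    rw [LinearMap.comp_eq_id_comm]; exact hcomp
  have hBn : ∀ x, ‖B x‖ = ‖x‖ := by
    intro x
    have h1 : ‖B x‖ ^ 2 = ‖x‖ ^ 2 := by
      rw [← real_inner_self_eq_norm_sq, ← real_inner_self_eq_norm_sq,
        ← LinearMap.adjoint_inner_left]
      have := congrArg (fun f : V →ₗ[ℝ] V => f x) hcomp'
      simp only [LinearMap.comp_apply, LinearMap.id_apply] at this
      rw [this]
    exact (sq_eq_sq₀ (norm_nonneg _) (norm_nonneg _)).1 h1
  apply Set.Subset.antisymm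
  · rintro _ ⟨x, hx, rfl⟩
    refine ⟨B x, ?_, by simp [hRB]⟩
    rw [mem_closedBall_zero_iff] at hx ⊢
    rw [hBn]; exact hx
  · rintro _ ⟨x, hx, rfl⟩
    refine ⟨B.adjoint x, ?_, ?_⟩
    · rw [mem_closedBall_zero_iff] at hx ⊢
      rw [← hBn, hBB]; exact hx
    · simp only
      rw [← hRB, hBB]

variable [MeasurableSpace V] [BorelSpace V]

lemma volume_ellipsoid (A : V →ₗ[ℝ] V) (c : V) :
    volume (ellipsoid A c) = ENNReal.ofReal |LinearMap.det A| * volume (closedBall (0 : V) 1) := by
  have : ellipsoid A c = (fun x => c + x) '' (A '' closedBall 0 1) := by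
    rw [Set.image_image]; rfl
  rw [this, Set.image_add_left, measure_preimage_add, Measure.addHaar_image_linearMap]

lemma volume_le_iff (A A' : V →ₗ[ℝ] V) (c c' : V) :
    volume (ellipsoid A c) ≤ volume (ellipsoid A' c') ↔
      |LinearMap.det A| ≤ |LinearMap.det A'| := by
  rw [volume_ellipsoid, volume_ellipsoid]
  have h1 : volume (closedBall (0 : V) 1) ≠ 0 := (measure_closedBall_pos _ _ one_pos).ne'
  have h2 : volume (closedBall (0 : V) 1) ≠ ⊤ := (isCompact_closedBall _ _).measure_lt_top.ne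
  rw [ENNReal.mul_le_mul_iff_left h1 h2, ENNReal.ofReal_le_ofReal_iff (abs_nonneg _)]

end Pool.Agent.R165.John
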