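import Pool.Agent.R165.Metric.Ineq
import Pool.Agent.R165.Metric.John

set_option autoImplicit false

open scoped RealInnerProductSpace
open MeasureTheory Metric Filter Topology

namespace Pool.Agent.R165.Metric

open Pool.Agent.R165.John (ellipsoid)

variable {n : ℕ}

/-- the cubic equation for the centre -/
noncomputable def cubic (n : ℕ) (δ : ℝ) : ℝ :=
  (1 - δ) * (2 * n - 2 - n * δ) * (3 * n - 4 - (2 * n - 2) * δ) -
    δ * ((n - 2) * (2 * n - 2 - n * δ) + 2 * (n - 2) * (1 - δ) + 4 * (1 - δ) ^ 2)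

noncomputable def M2 (n : ℕ) (δ : ℝ) : ℝ := 1 / (1 - δ) + (3 * n - 4) / ((n - 2) * δ)
noncomputable def M1 (n : ℕ) (δ : ℝ) : ℝ := 1 / (1 - δ) + (2 * n - 2) / ((n - 2) * δ)
noncomputable def M0 (n : ℕ) (δ : ℝ) : ℝ := 1 / (1 - δ) + (n - 2) / ((n - 2) * δ)

section params

variable {δ : ℝ} (hn : 3 ≤ n) (h0 : 0 < δ) (h1 : δ < 1)
include hn h0 h1

lemma M2_pos : 0 < M2 n δ := by
  have h3 : (3 : ℝ) ≤ n := by exact_mod_cast hn
  have : (0 : ℝ) < n - 2 := by linarith
  have : (0 : ℝ) < 3 * n - 4 := by linarith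
  have : 0 < 1 - δ := by linarith
  unfold M2; positivity

lemma M1_pos : 0 < M1 n δ := by
  have h3 : (3 : ℝ) ≤ n := by exact_mod_cast hn
  have : (0 : ℝ) < n - 2 := by linarith
  have : (0 : ℝ) < 2 * n - 2 := by linarith
  have : 0 < 1 - δ := by linarith
  unfold M1; positivity

lemma M0_pos : 0 < M0 n δ := by
  have h3 : (3 : ℝ) ≤ n := by exact_mod_cast hn
  have : (0 : ℝ) < n - 2 := by linarith
  have : 0 < 1 - δ := by linarith
  unfold M0; positivity

/-- the matrix of the ellipsoid -/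
lemma invs : 1 / M2 n δ = (n - 2) * δ * (1 - δ) / (3 * n - 4 - (2 * n - 2) * δ) ∧
    (1 / M1 n δ - 1 / M2 n δ) / (n - 2) = (n - 2) * (1 - δ) * (δ * (1 - δ)) /
      ((2 * n - 2 - n * δ) * (3 * n - 4 - (2 * n - 2) * δ)) ∧
    (1 / M0 n δ - 1 / M2 n δ - 2 * (n - 1) * ((1 / M1 n δ - 1 / M2 n δ) / (n - 2))) /
      (n * (n - 1) / 2) = 4 * (1 - δ) ^ 2 * (δ * (1 - δ)) /
      ((2 * n - 2 - n * δ) * (3 * n - 4 - (2 * n - 2) * δ)) := by
  have h3 : (3 : ℝ) ≤ n := by exact_mod_cast hn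
  have hm : (0 : ℝ) < n - 2 := by linarith
  have h1' : 0 < 1 - δ := by linarith
  have hP1 : 0 < 2 * (n : ℝ) - 2 - n * δ := by nlinarith
  have hP2 : 0 < 3 * (n : ℝ) - 4 - (2 * n - 2) * δ := by nlinarith
  have hn0 : (0 : ℝ) < n := by linarith
  have hn1 : (0 : ℝ) < n - 1 := by linarith
  have e2 : 1 / M2 n δ = (n - 2) * δ * (1 - δ) / (3 * n - 4 - (2 * n - 2) * δ) := by
    have : M2 n δ = (3 * n - 4 - (2 * n - 2) * δ) / ((n - 2) * δ * (1 - δ)) := by
      unfold M2; field_simp; ring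
    rw [this, one_div_div]
  have e1 : 1 / M1 n δ = (n - 2) * δ * (1 - δ) / (2 * n - 2 - n * δ) := by
    have : M1 n δ = (2 * n - 2 - n * δ) / ((n - 2) * δ * (1 - δ)) := by
      unfold M1; field_simp; ring
    rw [this, one_div_div]
  have e0 : 1 / M0 n δ = δ * (1 - δ) := by
    unfold M0; field_simp; ring
  have hd1 : 1 / M1 n δ - 1 / M2 n δ = (n - 2) * ((n - 2) * (1 - δ) * (δ * (1 - δ)) /
      ((2 * n - 2 - n * δ) * (3 * n - 4 - (2 * n - 2) * δ))) := by
    rw [e2, e1, div_sub_div _ _ hP1.ne' hP2.ne', mul_div_assoc', div_eq_div_iff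
      (mul_pos hP1 hP2).ne' (mul_pos hP1 hP2).ne']
    ring
  refine ⟨e2, ?_, ?_⟩
  · rw [hd1, mul_div_cancel_left₀ _ hm.ne']
  · rw [hd1, mul_div_cancel_left₀ _ hm.ne', e2, e0]
    have hnn : (n : ℝ) * (n - 1) / 2 ≠ 0 := by positivity
    rw [div_eq_iff hnn]
    have hP12 := (mul_pos hP1 hP2).ne'
    have g1 : (n - 2) * δ * (1 - δ) / (3 * n - 4 - (2 * n - 2) * δ) =
      (n - 2) * δ * (1 - δ) * (2 * n - 2 - n * δ) /
        ((2 * n - 2 - n * δ) * (3 * n - 4 - (2 * n - 2) * δ)) := by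
      rw [div_eq_div_iff hP2.ne' hP12]; ring
    rw [g1]
    have g2 : δ * (1 - δ) = δ * (1 - δ) * ((2 * n - 2 - n * δ) *
        (3 * n - 4 - (2 * n - 2) * δ)) /
        ((2 * n - 2 - n * δ) * (3 * n - 4 - (2 * n - 2) * δ)) := by
      rw [mul_div_assoc, div_self hP12, mul_one]
    conv_lhs => rw [g2]
    rw [mul_div_assoc', ← sub_div, ← sub_div, div_mul_eq_mul_div]
    congr 1
    rw [mul_div_assoc, div_self hP12, mul_one]
    ring

lemma norms (hF : cubic n δ = 0) :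
    1 / M2 n δ + 2 * ((1 / M1 n δ - 1 / M2 n δ) / (n - 2)) +
      (1 / M0 n δ - 1 / M2 n δ - 2 * (n - 1) * ((1 / M1 n δ - 1 / M2 n δ) / (n - 2))) /
      (n * (n - 1) / 2) = (1 - δ) ^ 2 ∧
    3 * (1 / M2 n δ) + 4 * ((1 / M1 n δ - 1 / M2 n δ) / (n - 2)) +
      (1 / M0 n δ - 1 / M2 n δ - 2 * (n - 1) * ((1 / M1 n δ - 1 / M2 n δ) / (n - 2))) /
      (n * (n - 1) / 2) = δ ^ 2 := by
  have h3 : (3 : ℝ) ≤ n := by exact_mod_cast hn
  have hm : (0 : ℝ) < n - 2 := by linarith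
  have h1' : 0 < 1 - δ := by linarith
  have hP1 : 0 < 2 * (n : ℝ) - 2 - n * δ := by nlinarith
  have hP2 : 0 < 3 * (n : ℝ) - 4 - (2 * n - 2) * δ := by nlinarith
  obtain ⟨e2, e1, e0⟩ := invs hn h0 h1
  rw [e0, e1, e2]
  unfold cubic at hF
  have hP12 := (mul_pos hP1 hP2).ne'
  have g1 : (n - 2) * δ * (1 - δ) / (3 * n - 4 - (2 * n - 2) * δ) =
      (n - 2) * δ * (1 - δ) * (2 * n - 2 - n * δ) /
        ((2 * n - 2 - n * δ) * (3 * n - 4 - (2 * n - 2) * δ)) := by
    rw [div_eq_div_iff hP2.ne' hP12]; ring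
  rw [g1]
  constructor
  · rw [mul_div_assoc', ← add_div, ← add_div, div_eq_iff hP12]
    linear_combination -(1 - δ) * hF
  · rw [mul_div_assoc', mul_div_assoc', ← add_div, ← add_div, div_eq_iff hP12]
    linear_combination δ * hF

end params

/-! ### The constraints -/

/-- ordered triples of distinct elements -/
abbrev Triple (n : ℕ) := {t : Fin n × Fin n × Fin n // t.1 ≠ t.2.1 ∧ t.2.1 ≠ t.2.2 ∧ t.1 ≠ t.2.2}

lemma sum_triple (F : Fin n → Fin n → Fin n → ℝ) :
    ∑ t : Triple n, F t.1.1 t.1.2.1 t.1.2.2 = tsum3 F := by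
  classical
  have h1 : ∑ t : Triple n, F t.1.1 t.1.2.1 t.1.2.2 =
      ∑ t ∈ (Finset.univ : Finset (Fin n × Fin n × Fin n)).filter
        (fun t : Fin n × Fin n × Fin n => t.1 ≠ t.2.1 ∧ t.2.1 ≠ t.2.2 ∧ t.1 ≠ t.2.2),
          F t.1 t.2.1 t.2.2 := by
    symm
    exact Finset.sum_subtype _ (by simp)
      (fun t : Fin n × Fin n × Fin n => F t.1 t.2.1 t.2.2)
  rw [h1, Finset.sum_filter, Fintype.sum_prod_type]
  simp_rw [Fintype.sum_prod_type]
  rfl

/-- the vector `e_ij + e_jk - e_ik` -/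
noncomputable def tvec (t : Triple n) : V n :=
  EuclideanSpace.single (⟨s(t.1.1, t.1.2.1), by simpa using t.2.1⟩ : Pair n) (1 : ℝ) +
  EuclideanSpace.single (⟨s(t.1.2.1, t.1.2.2), by simpa using t.2.2.1⟩ : Pair n) (1 : ℝ) -
  EuclideanSpace.single (⟨s(t.1.1, t.1.2.2), by simpa using t.2.2.2⟩ : Pair n) (1 : ℝ)

lemma inner_tvec (t : Triple n) (x : V n) : ⟪tvec t, x⟫ = tri x t.1.1 t.1.2.1 t.1.2.2 := by
  unfold tvec tri
  rw [inner_sub_left, inner_add_left, EuclideanSpace.inner_single_left,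
    EuclideanSpace.inner_single_left, EuclideanSpace.inner_single_left, ent_of_ne x t.2.1,
    ent_of_ne x t.2.2.1, ent_of_ne x t.2.2.2]
  simp

lemma tot_single (e : Pair n) : tot (EuclideanSpace.single e (1 : ℝ) : V n) = 1 := by
  classical
  unfold tot
  simp [Pi.single_apply]

lemma deg_single (e : Pair n) (i : Fin n) :
    deg (EuclideanSpace.single e (1 : ℝ) : V n) i = inc i e := by
  classical
  unfold deg
  simp [Pi.single_apply]

lemma sum_inc_sq (e : Pair n) : ∑ i, inc i e * inc i e = 2 := by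
  rw [← sum_inc e]
  refine Finset.sum_congr rfl fun i _ => ?_
  unfold inc; split_ifs <;> simp

lemma tot_tvec (t : Triple n) : tot (tvec t) = 1 := by
  unfold tvec
  rw [sub_eq_add_neg, ← neg_one_smul ℝ, tot_add, tot_add, tot_smul, tot_single, tot_single,
    tot_single]
  norm_num

lemma inc_mk (i j k : Fin n) (h : ¬ (s(j, k) : Sym2 (Fin n)).IsDiag) :
    inc i ⟨s(j, k), h⟩ = (if i = j then 1 else 0) + (if i = k then 1 else 0) := by
  have hjk : j ≠ k := by simpa using h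
  simp only [inc, Sym2.mem_iff]
  by_cases h1 : i = j
  · subst h1; simp [hjk]
  · by_cases h2 : i = k
    · subst h2; simp [h1]
    · simp [h1, h2]

lemma deg_tvec (t : Triple n) (i : Fin n) :
    deg (tvec t) i = if i = t.1.2.1 then 2 else 0 := by
  unfold tvec
  rw [sub_eq_add_neg, ← neg_one_smul ℝ, deg_add, deg_add, deg_smul, deg_single, deg_single,
    deg_single, inc_mk, inc_mk, inc_mk]
  split_ifs <;> norm_num

lemma tvec_self (t : Triple n) : ⟪tvec t, tvec t⟫ = 3 := by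
  obtain ⟨⟨i, j, k⟩, hij, hjk, hik⟩ := t
  simp only at hij hjk hik
  rw [inner_tvec]
  simp only [tri]
  rw [ent_of_ne _ hij, ent_of_ne _ hjk, ent_of_ne _ hik]
  have a1 : (s(i, j) : Sym2 (Fin n)) ≠ s(j, k) := by
    intro h; rcases Sym2.eq_iff.1 h with ⟨h1, _⟩ | ⟨h1, _⟩
    · exact hij h1
    · exact hik h1
  have a2 : (s(i, j) : Sym2 (Fin n)) ≠ s(i, k) := by
    intro h; rcases Sym2.eq_iff.1 h with ⟨_, h1⟩ | ⟨h1, _⟩
    · exact hjk h1
    · exact hik h1
  have a3 : (s(j, k) : Sym2 (Fin n)) ≠ s(i, k) := by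
    intro h; rcases Sym2.eq_iff.1 h with ⟨h1, _⟩ | ⟨h1, _⟩
    · exact hij h1.symm
    · exact hjk h1
  simp only [tvec, PiLp.sub_apply, PiLp.add_apply, EuclideanSpace.single_apply, Subtype.mk.injEq,
    a1, a1.symm, a2, a2.symm, a3, a3.symm, if_true, if_false]
  norm_num

/-- the index set of the constraints -/
abbrev Idx (n : ℕ) := Pair n ⊕ Triple n

/-- normal vectors of the constraints -/
noncomputable def av : Idx n → V n :=
  Sum.elim (fun p => EuclideanSpace.single p (1 : ℝ)) (fun t => - tvec t)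

/-- right-hand sides -/
def bv : Idx n → ℝ := Sum.elim (fun _ => 1) (fun _ => 0)

/-- multipliers -/
noncomputable def mv : Idx n → ℝ := Sum.elim (fun _ => 1) (fun _ => 1 / (2 * (n - 2)))

lemma mem_polytope_iff (hn : 3 ≤ n) (x : V n) :
    x ∈ metricPolytope n ↔ ∀ k : Idx n, ⟪av k, x⟫ ≤ bv k := by
  constructor
  · rintro h (p | t)
    · simp only [av, bv, Sum.elim_inl, EuclideanSpace.inner_single_left]
      simpa using (h.1 p).2
    · simp only [av, bv, Sum.elim_inr, inner_neg_left, inner_tvec]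
      have := h.2 _ _ _ t.2.1 t.2.2.1 t.2.2.2
      unfold tri; linarith
  · intro h
    have ht : ∀ i j k : Fin n, i ≠ j → j ≠ k → i ≠ k →
        0 ≤ ent x i j + ent x j k - ent x i k := by
      intro i j k hij hjk hik
      have := h (Sum.inr ⟨(i, j, k), hij, hjk, hik⟩)
      simp only [av, bv, Sum.elim_inr, inner_neg_left, inner_tvec, tri] at this
      linarith
    refine ⟨fun e => ⟨?_, ?_⟩, ht⟩
    · obtain ⟨e, he⟩ := e
      induction e using Sym2.ind with
      | _ i j =>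
        have hij : i ≠ j := by simpa using he
        obtain ⟨k, hk⟩ : ∃ k : Fin n, k ∉ ({i, j} : Finset (Fin n)) := by
          by_contra hcon
          push Not at hcon
          have h5 : (Finset.univ : Finset (Fin n)) ⊆ {i, j} := fun a _ => hcon a
          have := Finset.card_le_card h5
          have h6 : ({i, j} : Finset (Fin n)).card ≤ 2 := Finset.card_le_two
          simp at this
          omega
        simp only [Finset.mem_insert, Finset.mem_singleton, not_or] at hk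
        have t1 := ht i j k hij (Ne.symm hk.2) (Ne.symm hk.1)
        have t2 := ht j i k hij.symm (Ne.symm hk.1) (Ne.symm hk.2)
        rw [ent_comm x j i] at t2
        have : 0 ≤ ent x i j := by linarith
        rwa [ent_of_ne x hij] at this
    · have := h (Sum.inl e)
      simp only [av, bv, Sum.elim_inl, EuclideanSpace.inner_single_left] at this
      simpa using this

lemma mv_pos (hn : 3 ≤ n) (k : Idx n) : 0 < mv k := by
  have h3 : (3 : ℝ) ≤ n := by exact_mod_cast hn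
  have : (0 : ℝ) < n - 2 := by linarith
  rcases k with p | t
  · simp [mv]
  · simp only [mv, Sum.elim_inr]; positivity

lemma tsum3_tri (x : V n) : tsum3 (fun i j k => tri x i j k) = 2 * (n - 2) * tot x := by
  have s1 : tsum3 (fun i j _ => ent x i j) = 2 * (n - 2) * tot x := by
    rw [tsum3_edge (ent x) (ent_self x), sum_ent']; ring
  have s2 : tsum3 (fun _ j k => ent x j k) = 2 * (n - 2) * tot x :=
    (tsum3_rot (fun i j _ => ent x i j)).trans s1
  have s3 : tsum3 (fun i _ k => ent x i k) = 2 * (n - 2) * tot x :=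
    (tsum3_p23 (fun i j _ => ent x i j)).trans s1
  have key : tsum3 (fun i j k => tri x i j k) = tsum3 (fun i j _ => ent x i j) +
      tsum3 (fun _ j k => ent x j k) + (-1) * tsum3 (fun i _ k => ent x i k) := by
    simp only [← tsum3_mul, ← tsum3_add]
    congr 1; ext i j k; unfold tri; ring
  rw [key, s1, s2, s3]; ring

lemma sum_av (hn : 3 ≤ n) : ∑ k : Idx n, mv k • av k = (0 : V n) := by
  have h3 : (3 : ℝ) ≤ n := by exact_mod_cast hn
  have hn2 : (n : ℝ) - 2 ≠ 0 := by linarith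
  refine ext_inner_right ℝ fun x => ?_
  rw [inner_zero_left, sum_inner, Fintype.sum_sum_type]
  simp only [mv, av, Sum.elim_inl, Sum.elim_inr, inner_smul_left, inner_neg_left, inner_tvec,
    EuclideanSpace.inner_single_left, map_one, one_mul, conj_trivial]
  have h2 : ∑ t : Triple n, 1 / (2 * ((n : ℝ) - 2)) * -tri x t.1.1 t.1.2.1 t.1.2.2 =
      -(1 / (2 * ((n : ℝ) - 2))) * tsum3 (fun i j k => tri x i j k) := by
    rw [← sum_triple, Finset.mul_sum]
    exact Finset.sum_congr rfl fun t _ => by ring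
  rw [h2, tsum3_tri]
  have h4 : ∑ e, x e = tot x := rfl
  rw [h4]
  field_simp
  ring

lemma sum_bv : ∑ k : Idx n, mv k * bv k = Module.finrank ℝ (V n) := by
  rw [Fintype.sum_sum_type]
  simp [mv, bv]

/-- the symmetric matrix of the maximal ellipsoid -/
noncomputable def R (n : ℕ) (δ : ℝ) : V n →ₗ[ℝ] V n :=
  eop (1 / √(M2 n δ)) (1 / √(M1 n δ)) (1 / √(M0 n δ))

/-- its inverse -/
noncomputable def Ri (n : ℕ) (δ : ℝ) : V n →ₗ[ℝ] V n :=
  eop (√(M2 n δ)) (√(M1 n δ)) (√(M0 n δ))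

section

variable {δ : ℝ} (hn : 3 ≤ n) (h0 : 0 < δ) (h1 : δ < 1)
include hn h0 h1

lemma R_R (v : V n) : R n δ (R n δ v) = eop (1 / M2 n δ) (1 / M1 n δ) (1 / M0 n δ) v := by
  unfold R
  rw [eop_eop hn]
  have a2 := Real.mul_self_sqrt (M2_pos hn h0 h1).le
  have a1 := Real.mul_self_sqrt (M1_pos hn h0 h1).le
  have a0 := Real.mul_self_sqrt (M0_pos hn h0 h1).le
  simp only [div_mul_div_comm, one_mul]
  rw [a2, a1, a0]

lemma Ri_Ri (v : V n) : Ri n δ (Ri n δ v) = eop (M2 n δ) (M1 n δ) (M0 n δ) v := by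
  unfold Ri
  rw [eop_eop hn, Real.mul_self_sqrt (M2_pos hn h0 h1).le, Real.mul_self_sqrt (M1_pos hn h0 h1).le,
    Real.mul_self_sqrt (M0_pos hn h0 h1).le]

lemma R_Ri (v : V n) : R n δ (Ri n δ v) = v := by
  unfold R Ri
  have a2 := (Real.sqrt_pos.2 (M2_pos hn h0 h1)).ne'
  have a1 := (Real.sqrt_pos.2 (M1_pos hn h0 h1)).ne'
  have a0 := (Real.sqrt_pos.2 (M0_pos hn h0 h1)).ne'
  rw [eop_eop hn, one_div_mul_cancel a2, one_div_mul_cancel a1, one_div_mul_cancel a0, eop_one hn]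

lemma Ri_R (v : V n) : Ri n δ (R n δ v) = v := by
  unfold R Ri
  have a2 := (Real.sqrt_pos.2 (M2_pos hn h0 h1)).ne'
  have a1 := (Real.sqrt_pos.2 (M1_pos hn h0 h1)).ne'
  have a0 := (Real.sqrt_pos.2 (M0_pos hn h0 h1)).ne'
  rw [eop_eop hn, mul_one_div_cancel a2, mul_one_div_cancel a1, mul_one_div_cancel a0, eop_one hn]

lemma R_det : LinearMap.det (R n δ) ≠ 0 := by
  have h : R n δ ∘ₗ Ri n δ = LinearMap.id := LinearMap.ext fun v => R_Ri hn h0 h1 v
  intro hd
  have := congrArg LinearMap.det h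
  rw [LinearMap.det_comp, hd, zero_mul, LinearMap.det_id] at this
  exact zero_ne_one this

lemma R_symm : (R n δ).IsSymmetric := op_symm _ _ _

lemma Ri_symm : (Ri n δ).IsSymmetric := op_symm _ _ _

/-- the operator `M` -/
lemma inner_M (x y : V n) : ⟪x, eop (M2 n δ) (M1 n δ) (M0 n δ) y⟫ =
    M2 n δ * ⟪x, y⟫ - 1 / ((n - 2) * δ) * ∑ i, deg x i * deg y i := by
  have h3 : (3 : ℝ) ≤ n := by exact_mod_cast hn
  have hm : (n : ℝ) - 2 ≠ 0 := by linarith
  have hn1 : (n : ℝ) - 1 ≠ 0 := by linarith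
  have hn0 : (n : ℝ) ≠ 0 := by linarith
  have h1' : 1 - δ ≠ 0 := by linarith
  unfold eop
  rw [inner_op]
  have b1 : (M1 n δ - M2 n δ) / (n - 2) = -(1 / ((n - 2) * δ)) := by
    unfold M1 M2; field_simp; ring
  have b0 : (M0 n δ - M2 n δ - 2 * (n - 1) * ((M1 n δ - M2 n δ) / (n - 2))) /
      (n * (n - 1) / 2) = 0 := by
    rw [b1]
    unfold M0 M2; field_simp; ring
  rw [b0, b1]; ring

lemma norm_R_sq (a : V n) : ‖R n δ a‖ ^ 2 = 1 / M2 n δ * ⟪a, a⟫ +
    (1 / M1 n δ - 1 / M2 n δ) / (n - 2) * ∑ i, deg a i * deg a i +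
    (1 / M0 n δ - 1 / M2 n δ - 2 * (n - 1) * ((1 / M1 n δ - 1 / M2 n δ) / (n - 2))) /
      (n * (n - 1) / 2) * (tot a * tot a) := by
  rw [← real_inner_self_eq_norm_sq, R_symm hn h0 h1, R_R hn h0 h1, eop, inner_op]

lemma norm_R_av (hF : cubic n δ = 0) (k : Idx n) :
    ‖R n δ (av k)‖ = Sum.elim (fun _ => 1 - δ) (fun _ => δ) k := by
  obtain ⟨f1, f2⟩ := norms hn h0 h1 hF
  rcases k with p | t
  · simp only [av, Sum.elim_inl]
    have : ‖R n δ (EuclideanSpace.single p (1 : ℝ))‖ ^ 2 = (1 - δ) ^ 2 := by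
      rw [norm_R_sq hn h0 h1, ← f1, tot_single]
      simp only [deg_single, sum_inc_sq]
      rw [real_inner_self_eq_norm_sq, EuclideanSpace.norm_single]
      simp
      ring
    exact (sq_eq_sq₀ (norm_nonneg _) (by linarith)).1 this
  · simp only [av, Sum.elim_inr, map_neg, norm_neg]
    have : ‖R n δ (tvec t)‖ ^ 2 = δ ^ 2 := by
      rw [norm_R_sq hn h0 h1, ← f2, tot_tvec, tvec_self]
      have : ∑ i, deg (tvec t) i * deg (tvec t) i = 4 := by
        simp only [deg_tvec]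
        have h5 : ∀ i : Fin n, (if i = t.1.2.1 then (2 : ℝ) else 0) *
            (if i = t.1.2.1 then (2 : ℝ) else 0) = if i = t.1.2.1 then 4 else 0 := by
          intro i; split_ifs <;> norm_num
        simp_rw [h5]
        simp
      rw [this]
      ring
    exact (sq_eq_sq₀ (norm_nonneg _) h0.le).1 this

lemma hyp_H (hF : cubic n δ = 0) (x y : V n) :
    ∑ k, mv k / ‖R n δ (av k)‖ * (⟪av k, R n δ x⟫ * ⟪av k, R n δ y⟫) = ⟪x, y⟫ := by
  have h3 : (3 : ℝ) ≤ n := by exact_mod_cast hn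
  have hm : (n : ℝ) - 2 ≠ 0 := by linarith
  have h1' : 1 - δ ≠ 0 := by linarith
  have hx : ⟪x, y⟫ = ⟪R n δ x, eop (M2 n δ) (M1 n δ) (M0 n δ) (R n δ y)⟫ := by
    rw [← Ri_Ri hn h0 h1, ← Ri_symm hn h0 h1, Ri_R hn h0 h1, Ri_R hn h0 h1]
  rw [hx, inner_M hn h0 h1, Fintype.sum_sum_type]
  simp_rw [norm_R_av hn h0 h1 hF]
  set u := R n δ x
  set w := R n δ y
  simp only [mv, av, Sum.elim_inl, Sum.elim_inr, inner_neg_left, inner_tvec,
    EuclideanSpace.inner_single_left, map_one, one_mul, neg_mul_neg]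
  rw [← Finset.mul_sum, ← Finset.mul_sum,
    sum_triple (fun i j k => tri u i j k * tri w i j k), tsum3_tri_mul, ← inner_eq]
  unfold M2
  field_simp
  ring

end

/-- Maximality and uniqueness. -/
theorem john (hn : 3 ≤ n) {δ : ℝ} (h0 : 0 < δ) (h1 : δ < 1) (hF : cubic n δ = 0) :
    ellipsoid (R n δ) (cst δ) ⊆ metricPolytope n ∧
    ∀ (A : V n →ₗ[ℝ] V n) (c : V n), ellipsoid A c ⊆ metricPolytope n →
      |LinearMap.det A| ≤ |LinearMap.det (R n δ)| ∧
      (|LinearMap.det (R n δ)| ≤ |LinearMap.det A| →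
        ellipsoid A c = ellipsoid (R n δ) (cst δ) ∧ c = cst δ) := by
  have hRadj : LinearMap.adjoint (R n δ) = R n δ := by
    rw [← LinearMap.isSelfAdjoint_iff', ← LinearMap.isSymmetric_iff_isSelfAdjoint]
    exact R_symm hn h0 h1
  refine ⟨?_, fun A c hA => ?_⟩
  · intro x hx
    rw [mem_polytope_iff hn]
    intro k
    revert x
    rw [John.support_le_iff, hRadj, norm_R_av hn h0 h1 hF]
    rcases k with p | t
    · simp only [av, bv, Sum.elim_inl, EuclideanSpace.inner_single_left]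
      simp
    · simp only [av, bv, Sum.elim_inr, inner_neg_left, inner_cst, tot_tvec]
      linarith
  · have hA' : ∀ k : Idx n, ⟪av k, c⟫ + ‖A.adjoint (av k)‖ ≤ bv k := by
      intro k
      rw [← John.support_le_iff]
      intro x hx
      exact (mem_polytope_iff hn x).1 (hA hx) k
    have hs : ∀ k : Idx n, 0 < ‖R n δ (av k)‖ := by
      intro k
      rw [norm_R_av hn h0 h1 hF]
      rcases k with p | t
      · simp; linarith
      · simpa using h0
    obtain ⟨g1, g2⟩ := John.john_bound (av : Idx n → V n) bv mv (R n δ) (R_symm hn h0 h1)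
      (R_det hn h0 h1) (mv_pos hn) hs (sum_av hn) sum_bv (hyp_H hn h0 h1 hF) A c hA'
    refine ⟨g1, fun hge => ?_⟩
    obtain ⟨g3, g4⟩ := g2 hge
    have hc : c = cst δ := by
      ext e
      have := g4 (Sum.inl e)
      rw [norm_R_av hn h0 h1 hF] at this
      simp only [av, bv, Sum.elim_inl, EuclideanSpace.inner_single_left] at this
      simp at this
      simp; linarith
    refine ⟨?_, hc⟩
    rw [hc]
    exact John.ellipsoid_eq A (R n δ) (R_symm hn h0 h1) (R_det hn h0 h1) g3 _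

lemma norm_Ri_sub (hn : 3 ≤ n) {δ : ℝ} (h0 : 0 < δ) (h1 : δ < 1) (d : V n) :
    ‖Ri n δ (d - cst δ)‖ ^ 2 = Q n δ d := by
  rw [← real_inner_self_eq_norm_sq, Ri_symm hn h0 h1, Ri_Ri hn h0 h1, inner_M hn h0 h1, inner_eq, Q]
  unfold M2
  simp only [deg_sub, deg_cst, PiLp.sub_apply, cst_apply]
  simp only [pow_two]

lemma mem_dilate_iff (hn : 3 ≤ n) {δ : ℝ} (h0 : 0 < δ) (h1 : δ < 1) {t : ℝ} (ht : 0 < t)
    (d : V n) :
    d ∈ AffineMap.homothety (cst δ : V n) t '' ellipsoid (R n δ) (cst δ) ↔ Q n δ d ≤ t ^ 2 := by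
  rw [← norm_Ri_sub hn h0 h1]
  constructor
  · rintro ⟨_, ⟨x, hx, rfl⟩, rfl⟩
    rw [mem_closedBall_zero_iff] at hx
    simp only [AffineMap.homothety_apply, vsub_eq_sub, vadd_eq_add, add_sub_cancel_left,
      add_sub_cancel_right]
    rw [map_smul, Ri_R hn h0 h1, norm_smul, mul_pow, Real.norm_eq_abs, sq_abs]
    have : ‖x‖ ^ 2 ≤ 1 := pow_le_one₀ (norm_nonneg _) hx
    nlinarith [sq_nonneg t]
  · intro h
    refine ⟨cst δ + R n δ (t⁻¹ • Ri n δ (d - cst δ)), ⟨_, ?_, rfl⟩, ?_⟩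
    · rw [mem_closedBall_zero_iff, norm_smul, norm_inv, Real.norm_eq_abs, abs_of_pos ht]
      rw [inv_mul_le_iff₀ ht, mul_one]
      exact (abs_le_of_sq_le_sq' h ht.le).2
    · simp only [AffineMap.homothety_apply, vsub_eq_sub, vadd_eq_add, add_sub_cancel_left]
      rw [map_smul, R_Ri hn h0 h1, smul_smul, mul_inv_cancel₀ ht.ne', one_smul, sub_add_cancel]

end Pool.Agent.R165.Metric
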